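import Mathlib

set_option autoImplicit false

namespace Pool.Agent.Helper27.HypAlg

open Filter Topology

/-- The set of all generators of hypercyclic algebras for `T`. -/
def Gen0 {X : Type} [NonUnitalNormedCommRing X] [NormedSpace ℂ X] [IsScalarTower ℂ X X]
    [SMulCommClass ℂ X X] (T : X →L[ℂ] X) : Set X :=
  {x | x ≠ 0 ∧ ∀ y ∈ NonUnitalAlgebra.adjoin ℂ {x}, y ≠ 0 →
    Dense (Set.range fun n : ℕ => (⇑T)^[n] y)}

/-! ### The Hilbert space `ℓ²` and its operators -/

/-- The Hilbert space `ℓ²(ℕ, ℂ)`. -/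
abbrev H : Type := lp (fun _ : ℕ => ℂ) 2

lemma norm_le_of {x : H} {C : ℝ} (hC : 0 ≤ C) (h : ∀ s : Finset ℕ, ∑ i ∈ s, ‖x i‖ ^ 2 ≤ C ^ 2) :
    ‖x‖ ≤ C := by
  refine lp.norm_le_of_forall_sum_le (p := 2) (by norm_num) hC fun s => ?_
  simpa using h s

lemma sum_le (x : H) (s : Finset ℕ) : ∑ i ∈ s, ‖x i‖ ^ 2 ≤ ‖x‖ ^ 2 := by
  have := lp.sum_rpow_le_norm_rpow (p := 2) (by norm_num) x s
  simpa using this

lemma summable_sq (x : H) : Summable fun i => ‖x i‖ ^ 2 := by
  have := (lp.memℓp x).summable (by norm_num)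
  simpa using this

lemma apply_le (x : H) (i : ℕ) : ‖x i‖ ≤ ‖x‖ := lp.norm_apply_le_norm (by norm_num) x i

/-- build an element of `ℓ²`. -/
def mk (f : ℕ → ℂ) (hf : Summable fun i => ‖f i‖ ^ 2) : H :=
  ⟨f, memℓp_gen (by simpa using hf)⟩

@[simp] lemma mk_apply (f : ℕ → ℂ) (hf : Summable fun i => ‖f i‖ ^ 2) (i : ℕ) : mk f hf i = f i :=
  rfl

/-- coordinatewise product on `ℓ²`. -/
noncomputable def mulH (x y : H) : H :=
  mk (fun i => x i * y i) (by
    refine Summable.of_nonneg_of_le (fun i => by positivity) (fun i => ?_)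
      ((summable_sq y).mul_left (‖x‖ ^ 2))
    rw [norm_mul, mul_pow]
    gcongr
    exact apply_le x i)

@[simp] lemma mulH_apply (x y : H) (i : ℕ) : mulH x y i = x i * y i := rfl

lemma norm_mulH_le (x y : H) : ‖mulH x y‖ ≤ ‖x‖ * ‖y‖ := by
  refine norm_le_of (by positivity) fun s => ?_
  calc ∑ i ∈ s, ‖mulH x y i‖ ^ 2 ≤ ∑ i ∈ s, ‖x‖ ^ 2 * ‖y i‖ ^ 2 := by
        refine Finset.sum_le_sum fun i _ => ?_
        rw [mulH_apply, norm_mul, mul_pow]
        gcongr
        exact apply_le x i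
    _ = ‖x‖ ^ 2 * ∑ i ∈ s, ‖y i‖ ^ 2 := by rw [Finset.mul_sum]
    _ ≤ ‖x‖ ^ 2 * ‖y‖ ^ 2 := by gcongr; exact sum_le y s
    _ = (‖x‖ * ‖y‖) ^ 2 := by ring

/-- The backward shift on `ℓ²`. -/
noncomputable def B : H →L[ℂ] H :=
  LinearMap.mkContinuous
    { toFun := fun x => mk (fun i => x (i + 1)) ((summable_nat_add_iff 1).2 (summable_sq x))
      map_add' := fun x y => by ext i; simp
      map_smul' := fun c x => by ext i; simp } 1
    (fun x => by
      refine norm_le_of (by positivity) fun s => ?_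
      rw [one_mul]
      calc ∑ i ∈ s, ‖x (i + 1)‖ ^ 2 = ∑ i ∈ s.map ⟨(· + 1), add_left_injective 1⟩, ‖x i‖ ^ 2 := by
            rw [Finset.sum_map]; rfl
        _ ≤ ‖x‖ ^ 2 := sum_le x _)

@[simp] lemma B_apply (x : H) (i : ℕ) : B x i = x (i + 1) := rfl

/-- The forward shift on `ℓ²`. -/
noncomputable def S : H →L[ℂ] H :=
  LinearMap.mkContinuous
    { toFun := fun x => mk (fun i => if i = 0 then 0 else x (i - 1)) (by
        rw [← summable_nat_add_iff 1]
        simpa using summable_sq x)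
      map_add' := fun x y => by
        ext i
        by_cases h : i = 0 <;> simp [h]
      map_smul' := fun c x => by
        ext i
        by_cases h : i = 0 <;> simp [h] } 1
    (fun x => by
      refine norm_le_of (by positivity) fun s => ?_
      rw [one_mul]
      have hs : Summable fun i : ℕ => ‖(if i = 0 then 0 else x (i - 1) : ℂ)‖ ^ 2 := by
        rw [← summable_nat_add_iff 1]
        simpa using summable_sq x
      calc ∑ i ∈ s, ‖(if i = 0 then 0 else x (i - 1) : ℂ)‖ ^ 2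
          ≤ ∑' i : ℕ, ‖(if i = 0 then 0 else x (i - 1) : ℂ)‖ ^ 2 :=
            hs.sum_le_tsum s (fun i _ => by positivity)
        _ = ∑' i : ℕ, ‖x i‖ ^ 2 := by
            rw [hs.tsum_eq_zero_add]
            simp
        _ = ‖x‖ ^ 2 := by
            have := lp.norm_rpow_eq_tsum (p := 2) (by norm_num) x
            simpa using this.symm)

lemma S_apply (x : H) (i : ℕ) : S x i = if i = 0 then 0 else x (i - 1) := rfl

@[simp] lemma S_apply_zero (x : H) : S x 0 = 0 := rfl

@[simp] lemma S_apply_succ (x : H) (i : ℕ) : S x (i + 1) = x i := rfl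

/-- The first unit vector. -/
noncomputable def e0 : H := lp.single 2 0 1

/-- Evaluation at the coordinate `0`. -/
noncomputable def ev0 : H →L[ℂ] ℂ := lp.evalCLM ℂ (fun _ : ℕ => ℂ) 2 0

@[simp] lemma ev0_apply (x : H) : ev0 x = x 0 := rfl

/-- `R = 2B`. -/
noncomputable def R : H →L[ℂ] H := (2 : ℂ) • B

@[simp] lemma R_apply (x : H) (i : ℕ) : R x i = 2 * x (i + 1) := rfl

/-- `K = 1 - S`. -/
noncomputable def K : H →L[ℂ] H := ContinuousLinearMap.id ℂ H - S

@[simp] lemma K_apply (x : H) (i : ℕ) : K x i = x i - S x i := rfl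

/-- `T₁ = 2B + 2 e₀ ⊗ e₀*`. -/
noncomputable def T1 : H →L[ℂ] H := R + (2 : ℂ) • ev0.smulRight e0

lemma e0_apply_zero : e0 0 = 1 := by simp [e0]

lemma e0_apply_succ (i : ℕ) : e0 (i + 1) = 0 := by simp [e0]

lemma T1_apply (x : H) (i : ℕ) : T1 x i = 2 * x (i + 1) + 2 * (x 0 * e0 i) := rfl

lemma T1_apply_zero (x : H) : T1 x 0 = 2 * x 1 + 2 * x 0 := by
  rw [T1_apply, e0_apply_zero]; ring

lemma T1_apply_succ (x : H) (i : ℕ) : T1 x (i + 1) = 2 * x (i + 2) := by
  rw [T1_apply, e0_apply_succ]; ring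

lemma T1_K (x : H) : T1 (K x) = K (R x) := by
  ext i
  cases i with
  | zero => rw [T1_apply_zero]; simp; ring
  | succ i => rw [T1_apply_succ]; simp; ring

lemma R_iter (n : ℕ) (x : H) (i : ℕ) : (R^[n] x) i = 2 ^ n * x (n + i) := by
  induction n generalizing x with
  | zero => simp
  | succ n ih =>
    rw [Function.iterate_succ_apply, ih, R_apply, show n + i + 1 = n + 1 + i by ring]
    ring

lemma T1_iter_succ (n : ℕ) (x : H) (i : ℕ) : (T1^[n] x) (i + 1) = 2 ^ n * x (n + (i + 1)) := by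
  induction n generalizing i with
  | zero => simp
  | succ n ih =>
    rw [Function.iterate_succ_apply', T1_apply_succ, ih, show n + (i + 1 + 1) = n + 1 + (i + 1) by ring]
    ring

lemma T1_iter_zero (n : ℕ) (x : H) : (T1^[n] x) 0 = 2 ^ n * ∑ i ∈ Finset.range (n + 1), x i := by
  induction n with
  | zero => simp
  | succ n ih =>
    rw [Function.iterate_succ_apply', T1_apply_zero, ih]
    have := T1_iter_succ n x 0
    rw [zero_add] at this
    rw [this, Finset.sum_range_succ _ (n + 1)]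
    ring

/-- The operator of the counterexample, on `ℓ² × ℓ²`. -/
noncomputable def T : H × H →L[ℂ] H × H :=
  (T1.comp (ContinuousLinearMap.fst ℂ H H)
    - (K.comp (R.comp R - R)).comp (ContinuousLinearMap.snd ℂ H H)).prod
  ((R.comp R).comp (ContinuousLinearMap.snd ℂ H H))

lemma T_apply (u z : H) : T (u, z) = (T1 u - K (R (R z) - R z), R (R z)) := rfl

lemma T_iter (n : ℕ) (u z : H) :
    T^[n] (u, z) = (T1^[n] u + K (R^[n] z) - K (R^[2 * n] z), R^[2 * n] z) := by
  induction n with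
  | zero => simp
  | succ n ih =>
    rw [Function.iterate_succ_apply', ih, T_apply]
    have h1 : R^[2 * (n + 1)] z = R (R (R^[2 * n] z)) := by
      rw [show 2 * (n + 1) = 2 * n + 1 + 1 by ring, Function.iterate_succ_apply',
        Function.iterate_succ_apply']
    rw [h1, Function.iterate_succ_apply' (⇑T1), Function.iterate_succ_apply' (⇑R), map_sub, map_add,
      T1_K, T1_K, map_sub]
    congr 1
    abel

/-! ### The obstruction -/

/-- If the `T`-orbit of `(a², b²)` is dense, then `∑ aᵢ² = 0`. -/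
lemma tsum_sq_eq_zero (a b : H)
    (h : Dense (Set.range fun n : ℕ => T^[n] (mulH a a, mulH b b))) : ∑' i, a i * a i = 0 := by
  by_contra hs
  have hsum : Summable fun i => a i * a i := by
    refine Summable.of_norm ((summable_sq a).congr fun i => ?_)
    rw [norm_mul, sq]
  -- the functional `Φ (u, z) = u₀ + z₀`
  set Φ : H × H → ℂ := fun p => p.1 0 + p.2 0 with hΦ
  have hΦc : Continuous Φ :=
    (ev0.continuous.comp continuous_fst).add (ev0.continuous.comp continuous_snd)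
  have hΦs : Function.Surjective Φ := by
    intro c
    refine ⟨(c • e0, 0), ?_⟩
    simp only [hΦ]
    have : (c • e0 : H) 0 = c * e0 0 := rfl
    rw [this, e0_apply_zero]
    simp
  have hval : ∀ n : ℕ, Φ (T^[n] (mulH a a, mulH b b)) =
      2 ^ n * (∑ i ∈ Finset.range (n + 1), a i * a i + b n * b n) := by
    intro n
    rw [T_iter]
    simp only [hΦ]
    have h1 : (T1^[n] (mulH a a) + K (R^[n] (mulH b b)) - K (R^[2 * n] (mulH b b)) : H) 0 =
        (T1^[n] (mulH a a)) 0 + K (R^[n] (mulH b b)) 0 - K (R^[2 * n] (mulH b b)) 0 := rfl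
    rw [h1, K_apply, K_apply, S_apply_zero, S_apply_zero, T1_iter_zero, R_iter, R_iter]
    simp only [mulH_apply, add_zero]
    ring
  have hlim : Tendsto (fun n : ℕ => ‖∑ i ∈ Finset.range (n + 1), a i * a i + b n * b n‖) atTop
      (𝓝 ‖(∑' i, a i * a i) + 0‖) := by
    refine Tendsto.norm (Tendsto.add ?_ ?_)
    · exact (hsum.hasSum.tendsto_sum_nat).comp (tendsto_add_atTop_nat 1)
    · have h2 : Summable fun i => b i * b i := by
        refine Summable.of_norm ((summable_sq b).congr fun i => ?_)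
        rw [norm_mul, sq]
      exact h2.tendsto_atTop_zero
  rw [add_zero] at hlim
  have hpos : 0 < ‖∑' i, a i * a i‖ := norm_pos_iff.2 hs
  have htop : Tendsto (fun n : ℕ => ‖Φ (T^[n] (mulH a a, mulH b b))‖) atTop atTop := by
    have h3 : Tendsto (fun n : ℕ => (2 : ℝ) ^ n *
        ‖∑ i ∈ Finset.range (n + 1), a i * a i + b n * b n‖) atTop atTop :=
      (tendsto_pow_atTop_atTop_of_one_lt (by norm_num)).atTop_mul_pos hpos hlim
    refine h3.congr fun n => ?_
    rw [hval, norm_mul, norm_pow]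
    norm_num
  obtain ⟨N, hN⟩ := eventually_atTop.1 (htop.eventually_ge_atTop 1)
  -- the image of the orbit is dense in `ℂ`
  have hd : Dense (Set.range fun n : ℕ => Φ (T^[n] (mulH a a, mulH b b))) := by
    have := hΦs.denseRange.dense_image hΦc h
    rwa [← Set.range_comp] at this
  have hfin : (Set.range fun n : Fin N => Φ (T^[(n : ℕ)] (mulH a a, mulH b b))).Finite :=
    Set.finite_range _
  have hd2 := hd.sdiff_finite hfin
  obtain ⟨w, hw1, hw2⟩ := hd2.exists_mem_open (Metric.isOpen_ball (x := (0 : ℂ)) (ε := 1))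
    ⟨0, Metric.mem_ball_self one_pos⟩
  obtain ⟨⟨n, rfl⟩, hn⟩ := hw1
  rw [mem_ball_zero_iff] at hw2
  have hnN : n < N := by
    by_contra h4
    push Not at h4
    exact absurd (hN n h4) (not_le.2 hw2)
  exact hn ⟨⟨n, hnN⟩, rfl⟩

/-! ### The Banach algebra structure -/

/-- `ℓ²` with the coordinatewise product is a commutative Banach algebra. -/
noncomputable instance ringH : NonUnitalNormedCommRing H :=
  { (inferInstance : NormedAddCommGroup H) with
    mul := mulH
    left_distrib := fun x y z => by ext i; exact mul_add (x i) (y i) (z i)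
    right_distrib := fun x y z => by ext i; exact add_mul (x i) (y i) (z i)
    zero_mul := fun x => by ext i; exact zero_mul (x i)
    mul_zero := fun x => by ext i; exact mul_zero (x i)
    mul_assoc := fun x y z => by ext i; exact mul_assoc (x i) (y i) (z i)
    mul_comm := fun x y => by ext i; exact mul_comm (x i) (y i)
    norm_mul_le := norm_mulH_le }

lemma mul_def (x y : H) : x * y = mulH x y := rfl

@[simp] lemma mul_apply (x y : H) (i : ℕ) : (x * y) i = x i * y i := rfl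

instance : IsScalarTower ℂ H H :=
  ⟨fun c x y => by ext i; exact smul_mul_assoc c (x i) (y i)⟩

instance : SMulCommClass ℂ H H :=
  ⟨fun c x y => by ext i; exact (mul_smul_comm c (x i) (y i)).symm⟩

/-- `pw k x = x^(k+1)`. -/
noncomputable def pw : ℕ → H → H
  | 0, x => x
  | k + 1, x => x * pw k x

@[simp] lemma pw_apply (k : ℕ) (x : H) (i : ℕ) : pw k x i = x i ^ (k + 1) := by
  induction k with
  | zero => simp [pw]
  | succ k ih => rw [pw, mul_apply, ih, ← pow_succ']

lemma continuous_pw (k : ℕ) : Continuous (pw k) := by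
  induction k with
  | zero => exact continuous_id
  | succ k ih => exact continuous_id.mul ih

/-! ### Blocks -/

/-- The vector with entries `a 0, …, a (N-1)` at the places `s, …, s+N-1`. -/
noncomputable def blk (s N : ℕ) (a : ℕ → ℂ) : H := ∑ j ∈ Finset.range N, lp.single 2 (s + j) (a j)

lemma blk_apply (s N : ℕ) (a : ℕ → ℂ) (i : ℕ) :
    blk s N a i = if s ≤ i ∧ i < s + N then a (i - s) else 0 := by
  have h1 : blk s N a i = ∑ j ∈ Finset.range N, (lp.single 2 (s + j) (a j) : H) i := by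
    rw [blk, lp.coeFn_sum, Finset.sum_apply]
  rw [h1]
  split_ifs with h
  · rw [Finset.sum_eq_single (i - s)]
    · rw [show s + (i - s) = i by omega, lp.single_apply_self]
    · intro j _ hj
      exact lp.single_apply_ne _ _ _ (by omega)
    · intro h2
      rw [Finset.mem_range] at h2
      omega
  · refine Finset.sum_eq_zero fun j hj => ?_
    rw [Finset.mem_range] at hj
    exact lp.single_apply_ne _ _ _ (by omega)

lemma norm_blk_le (s N : ℕ) (a : ℕ → ℂ) : ‖blk s N a‖ ≤ ∑ j ∈ Finset.range N, ‖a j‖ := by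
  refine (norm_sum_le _ _).trans (Finset.sum_le_sum fun j _ => ?_)
  rw [lp.norm_single (by norm_num)]

lemma exists_blk (x : H) {ε : ℝ} (hε : 0 < ε) : ∃ N, ∀ M ≥ N, ‖x - blk 0 M x‖ < ε := by
  have h1 := (lp.hasSum_single (p := 2) (by norm_num) x).tendsto_sum_nat
  have h2 : ∀ M, ∑ i ∈ Finset.range M, (lp.single 2 i (x i) : H) = blk 0 M x := by
    intro M
    rw [blk]
    refine Finset.sum_congr rfl fun i _ => by rw [zero_add]
  simp only [h2] at h1
  obtain ⟨N, hN⟩ := Metric.tendsto_atTop.1 h1 ε hε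
  refine ⟨N, fun M hM => ?_⟩
  rw [← dist_eq_norm, dist_comm]
  exact hN M hM

instance : TopologicalSpace.SeparableSpace H := by
  rw [← TopologicalSpace.isSeparable_univ_iff]
  have h1 : TopologicalSpace.IsSeparable (Submodule.span ℂ
      (Set.range fun i : ℕ => (lp.single 2 i (1 : ℂ) : H)) : Set H) :=
    TopologicalSpace.IsSeparable.span (Set.countable_range _).isSeparable
  have h2 := h1.closure
  refine h2.mono fun x _ => ?_
  rw [Metric.mem_closure_iff]
  intro ε hε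
  obtain ⟨N, hN⟩ := exists_blk x hε
  refine ⟨blk 0 N x, ?_, by rw [dist_eq_norm]; exact hN N le_rfl⟩
  refine Submodule.sum_mem _ fun j _ => ?_
  have : (lp.single 2 (0 + j) (x j) : H) = (x j) • (lp.single 2 (0 + j) (1 : ℂ) : H) := by
    rw [← lp.single_smul]; simp
  rw [this]
  exact Submodule.smul_mem _ _ (Submodule.subset_span ⟨0 + j, rfl⟩)

/-- `K` has dense range. -/
lemma dense_range_K : DenseRange K := by
  have h1 : (LinearMap.range (K : H →ₗ[ℂ] H)).topologicalClosure = ⊤ := by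
    rw [Submodule.topologicalClosure_eq_top_iff, Submodule.eq_bot_iff]
    intro v hv
    rw [Submodule.mem_orthogonal] at hv
    have h2 : ∀ i : ℕ, v i = v (i + 1) := by
      intro i
      have h3 := hv (K (lp.single 2 i (1 : ℂ))) ⟨_, rfl⟩
      have h4 : K (lp.single 2 i (1 : ℂ)) = lp.single 2 i (1 : ℂ) - lp.single 2 (i + 1) (1 : ℂ) := by
        ext j
        rw [K_apply]
        change _ = (lp.single 2 i (1 : ℂ) : H) j - (lp.single 2 (i + 1) (1 : ℂ) : H) j
        congr 1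
        cases j with
        | zero => rw [S_apply_zero, lp.single_apply_ne _ _ _ (by omega)]
        | succ j =>
          rw [S_apply_succ]
          by_cases hj : j = i
          · rw [hj, lp.single_apply_self, lp.single_apply_self]
          · rw [lp.single_apply_ne _ _ _ hj, lp.single_apply_ne _ _ _ (by omega)]
      rw [h4, inner_sub_left, lp.inner_single_left, lp.inner_single_left] at h3
      simpa [sub_eq_zero] using h3
    have h5 : ∀ i : ℕ, v i = v 0 := by
      intro i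
      induction i with
      | zero => rfl
      | succ i ih => rw [← h2, ih]
    have h6 : Tendsto (fun i => ‖v i‖ ^ 2) atTop (𝓝 0) := (summable_sq v).tendsto_atTop_zero
    simp only [h5] at h6
    have h7 := tendsto_nhds_unique h6 tendsto_const_nhds
    have h8 : v 0 = 0 := by
      have : ‖v 0‖ ^ 2 = 0 := h7.symm
      simpa using this
    ext i
    rw [h5, h8]
    rfl
  have h2 : Dense ((LinearMap.range (K : H →ₗ[ℂ] H) : Submodule ℂ H) : Set H) := by
    rw [Submodule.dense_iff_topologicalClosure_eq_top]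
    exact h1
  exact h2

/-! ### Existence of a generator -/

/-- The open sets to which Baire's theorem is applied. -/
def Op (m : ℕ) (p q : H) (ε : ℝ) : Set H :=
  ⋃ n : ℕ, {z | ‖R^[n] (pw m z) - p‖ < ε ∧ ‖R^[2 * n] (pw m z) - q‖ < ε ∧
    ‖R^[n] (pw (m + 1) z)‖ < ε ∧ ‖R^[2 * n] (pw (m + 1) z)‖ < ε}

lemma isOpen_Op (m : ℕ) (p q : H) (ε : ℝ) : IsOpen (Op m p q ε) := by
  refine isOpen_iUnion fun n => ?_
  have hR : ∀ n : ℕ, Continuous (R^[n]) := fun n => R.continuous.iterate n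
  refine IsOpen.inter ?_ (IsOpen.inter ?_ (IsOpen.inter ?_ ?_))
  · exact isOpen_lt (((hR n).comp (continuous_pw m)).sub continuous_const).norm continuous_const
  · exact isOpen_lt (((hR _).comp (continuous_pw m)).sub continuous_const).norm continuous_const
  · exact isOpen_lt ((hR n).comp (continuous_pw (m + 1))).norm continuous_const
  · exact isOpen_lt ((hR _).comp (continuous_pw (m + 1))).norm continuous_const

/-- The perturbed vector. -/
noncomputable def vec (z : H) (N m k : ℕ) (a b : ℕ → ℂ) : H :=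
  blk 0 N z + (blk ((m + 1) * k) N (fun j => 2⁻¹ ^ k * a j) +
    blk (2 * ((m + 1) * k)) N (fun j => 4⁻¹ ^ k * b j))

lemma vec_apply_add (z : H) (N m k : ℕ) (a b : ℕ → ℂ) (hk : N ≤ (m + 1) * k) (i : ℕ) :
    vec z N m k a b ((m + 1) * k + i) = if i < N then 2⁻¹ ^ k * a i else
      if (m + 1) * k ≤ i ∧ i < (m + 1) * k + N then 4⁻¹ ^ k * b (i - (m + 1) * k) else 0 := by
  generalize hn : (m + 1) * k = n at *
  have h0 : vec z N m k a b (n + i) = blk 0 N z (n + i) +
      (blk n N (fun j => 2⁻¹ ^ k * a j) (n + i) +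
        blk (2 * n) N (fun j => 4⁻¹ ^ k * b j) (n + i)) := by
    rw [← hn]; rfl
  rw [h0, blk_apply, blk_apply, blk_apply, if_neg (by omega), zero_add]
  by_cases h1 : i < N
  · rw [if_pos (by omega), if_neg (by omega), if_pos h1, add_zero, Nat.add_sub_cancel_left]
  · rw [if_neg (by omega), if_neg h1, zero_add]
    by_cases h2 : n ≤ i ∧ i < n + N
    · rw [if_pos (by omega), if_pos h2, show n + i - 2 * n = i - n by omega]
    · rw [if_neg (by omega), if_neg h2]

lemma vec_apply_add2 (z : H) (N m k : ℕ) (a b : ℕ → ℂ) (hk : N ≤ (m + 1) * k) (i : ℕ) :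
    vec z N m k a b (2 * ((m + 1) * k) + i) = if i < N then 4⁻¹ ^ k * b i else 0 := by
  have h1 := vec_apply_add z N m k a b hk ((m + 1) * k + i)
  rw [show (m + 1) * k + ((m + 1) * k + i) = 2 * ((m + 1) * k) + i by ring] at h1
  rw [h1]
  generalize (m + 1) * k = n at *
  by_cases h : i < N
  · rw [if_pos h]
    by_cases hN : n + i < N
    · omega
    · rw [if_neg hN, if_pos (by omega), Nat.add_sub_cancel_left]
  · rw [if_neg h, if_neg (by omega), if_neg (by omega)]

section vec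

variable {z p q : H} {N m k : ℕ} {a b : ℕ → ℂ} (hk : N ≤ (m + 1) * k)
  (ha : ∀ j, a j ^ (m + 1) = p j) (hb : ∀ j, b j ^ (m + 1) = q j)

include hk ha hb

lemma vec1 : R^[(m + 1) * k] (pw m (vec z N m k a b)) =
    blk 0 N p + blk ((m + 1) * k) N (fun j => 2⁻¹ ^ ((m + 1) * k) * q j) := by
  ext i
  rw [R_iter, pw_apply, vec_apply_add z N m k a b hk]
  change _ = blk 0 N p i + blk ((m + 1) * k) N (fun j => 2⁻¹ ^ ((m + 1) * k) * q j) i
  rw [blk_apply, blk_apply]
  have e1 : ∀ x : ℂ, (2 : ℂ) ^ ((m + 1) * k) * (2⁻¹ ^ k * x) ^ (m + 1) = x ^ (m + 1) := by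
    intro x
    rw [mul_pow, ← pow_mul, mul_comm k (m + 1), ← mul_assoc, ← mul_pow]
    norm_num
  have e2 : ∀ x : ℂ, (2 : ℂ) ^ ((m + 1) * k) * (4⁻¹ ^ k * x) ^ (m + 1) =
      2⁻¹ ^ ((m + 1) * k) * x ^ (m + 1) := by
    intro x
    rw [mul_pow, ← pow_mul, mul_comm k (m + 1), ← mul_assoc, ← mul_pow]
    norm_num
  by_cases h1 : i < N
  · rw [if_pos h1, if_pos (by omega), if_neg (by omega), e1, ha]
    simp
  · have c1 : ¬ (0 ≤ i ∧ i < 0 + N) := by omega
    by_cases h2 : (m + 1) * k ≤ i ∧ i < (m + 1) * k + N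
    · rw [if_neg h1, if_pos h2, if_neg c1, if_pos h2, e2, hb, zero_add]
    · rw [if_neg h1, if_neg h2, if_neg c1, if_neg h2]
      simp

omit ha in
lemma vec2 : R^[2 * ((m + 1) * k)] (pw m (vec z N m k a b)) = blk 0 N q := by
  ext i
  rw [R_iter, pw_apply, vec_apply_add2 z N m k a b hk, blk_apply]
  have e1 : ∀ x : ℂ, (2 : ℂ) ^ (2 * ((m + 1) * k)) * (4⁻¹ ^ k * x) ^ (m + 1) = x ^ (m + 1) := by
    intro x
    rw [mul_pow, ← pow_mul, mul_comm k (m + 1), ← mul_assoc, pow_mul 2 2, ← mul_pow]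
    norm_num
  by_cases h1 : i < N
  · rw [if_pos h1, if_pos (by omega), e1, hb]
    simp
  · rw [if_neg h1, if_neg (by omega)]
    simp

lemma vec3 : R^[(m + 1) * k] (pw (m + 1) (vec z N m k a b)) =
    blk 0 N (fun j => 2⁻¹ ^ k * (p j * a j)) +
      blk ((m + 1) * k) N (fun j => 2⁻¹ ^ ((m + 1) * k) * 4⁻¹ ^ k * (q j * b j)) := by
  ext i
  rw [R_iter, pw_apply, vec_apply_add z N m k a b hk]
  change _ = blk 0 N (fun j => 2⁻¹ ^ k * (p j * a j)) i +
    blk ((m + 1) * k) N (fun j => 2⁻¹ ^ ((m + 1) * k) * 4⁻¹ ^ k * (q j * b j)) i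
  rw [blk_apply, blk_apply]
  have e1 : ∀ x : ℂ, (2 : ℂ) ^ ((m + 1) * k) * (2⁻¹ ^ k * x) ^ (m + 1 + 1) =
      2⁻¹ ^ k * (x ^ (m + 1) * x) := by
    intro x
    rw [pow_succ, mul_pow, ← pow_mul, mul_comm k (m + 1)]
    have : (2 : ℂ) ^ ((m + 1) * k) * 2⁻¹ ^ ((m + 1) * k) = 1 := by
      rw [← mul_pow]; norm_num
    linear_combination (x ^ (m + 1) * 2⁻¹ ^ k * x) * this
  have e2 : ∀ x : ℂ, (2 : ℂ) ^ ((m + 1) * k) * (4⁻¹ ^ k * x) ^ (m + 1 + 1) =
      2⁻¹ ^ ((m + 1) * k) * 4⁻¹ ^ k * (x ^ (m + 1) * x) := by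
    intro x
    rw [pow_succ, mul_pow, ← pow_mul, mul_comm k (m + 1)]
    have : (2 : ℂ) ^ ((m + 1) * k) * 4⁻¹ ^ ((m + 1) * k) = 2⁻¹ ^ ((m + 1) * k) := by
      rw [← mul_pow]; norm_num
    linear_combination (x ^ (m + 1) * 4⁻¹ ^ k * x) * this
  by_cases h1 : i < N
  · rw [if_pos h1, if_pos (by omega), if_neg (by omega), e1, ha]
    simp
  · have c1 : ¬ (0 ≤ i ∧ i < 0 + N) := by omega
    by_cases h2 : (m + 1) * k ≤ i ∧ i < (m + 1) * k + N
    · rw [if_neg h1, if_pos h2, if_neg c1, if_pos h2, e2, hb, zero_add]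
    · rw [if_neg h1, if_neg h2, if_neg c1, if_neg h2]
      simp

omit ha in
lemma vec4 : R^[2 * ((m + 1) * k)] (pw (m + 1) (vec z N m k a b)) =
    blk 0 N (fun j => 4⁻¹ ^ k * (q j * b j)) := by
  ext i
  rw [R_iter, pw_apply, vec_apply_add2 z N m k a b hk, blk_apply]
  have e1 : ∀ x : ℂ, (2 : ℂ) ^ (2 * ((m + 1) * k)) * (4⁻¹ ^ k * x) ^ (m + 1 + 1) =
      4⁻¹ ^ k * (x ^ (m + 1) * x) := by
    intro x
    rw [pow_succ, mul_pow, ← pow_mul, mul_comm k (m + 1)]
    have : (2 : ℂ) ^ (2 * ((m + 1) * k)) * 4⁻¹ ^ ((m + 1) * k) = 1 := by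
      rw [pow_mul 2 2, ← mul_pow]; norm_num
    linear_combination (x ^ (m + 1) * 4⁻¹ ^ k * x) * this
  by_cases h1 : i < N
  · rw [if_pos h1, if_pos (by omega), e1, hb]
    simp
  · rw [if_neg h1, if_neg (by omega)]
    simp

end vec

lemma norm_blk_smul_le (s N : ℕ) (c : ℂ) (r : ℝ) (hc : ‖c‖ ≤ r) (a : ℕ → ℂ) :
    ‖blk s N (fun j => c * a j)‖ ≤ r * ∑ j ∈ Finset.range N, ‖a j‖ := by
  refine (norm_blk_le s N _).trans ?_
  rw [Finset.mul_sum]
  refine Finset.sum_le_sum fun j _ => ?_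
  rw [norm_mul]
  gcongr

lemma dense_Op (m : ℕ) (p q : H) {ε : ℝ} (hε : 0 < ε) : Dense (Op m p q ε) := by
  rw [Metric.dense_iff]
  intro z δ hδ
  obtain ⟨N1, hN1⟩ := exists_blk z (half_pos hδ)
  obtain ⟨N2, hN2⟩ := exists_blk p (half_pos hε)
  obtain ⟨N3, hN3⟩ := exists_blk q (half_pos hε)
  set N := max N1 (max N2 N3) with hN
  have hz := hN1 N (le_max_left _ _)
  have hp := hN2 N ((le_max_left _ _).trans (le_max_right _ _))
  have hq := hN3 N ((le_max_right _ _).trans (le_max_right _ _))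
  choose a ha using fun j => IsAlgClosed.exists_pow_nat_eq (p j) (Nat.succ_pos m)
  choose b hb using fun j => IsAlgClosed.exists_pow_nat_eq (q j) (Nat.succ_pos m)
  -- a common constant
  set C : ℝ := ∑ j ∈ Finset.range N, ‖a j‖ + ∑ j ∈ Finset.range N, ‖b j‖ +
    ∑ j ∈ Finset.range N, ‖q j‖ + ∑ j ∈ Finset.range N, ‖p j * a j‖ +
    ∑ j ∈ Finset.range N, ‖q j * b j‖ with hC
  have ca : 0 ≤ ∑ j ∈ Finset.range N, ‖a j‖ := by positivity
  have cb : 0 ≤ ∑ j ∈ Finset.range N, ‖b j‖ := by positivity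
  have cq : 0 ≤ ∑ j ∈ Finset.range N, ‖q j‖ := by positivity
  have cpa : 0 ≤ ∑ j ∈ Finset.range N, ‖p j * a j‖ := by positivity
  have cqb : 0 ≤ ∑ j ∈ Finset.range N, ‖q j * b j‖ := by positivity
  have hlim : Tendsto (fun k : ℕ => (2⁻¹ : ℝ) ^ k * C) atTop (𝓝 (0 * C)) :=
    (tendsto_pow_atTop_nhds_zero_of_lt_one (by norm_num) (by norm_num)).mul_const C
  rw [zero_mul] at hlim
  have hmin : 0 < min (δ / 2) (ε / 2) := lt_min (half_pos hδ) (half_pos hε)
  obtain ⟨k, hk1, hk2⟩ := ((hlim.eventually_lt_const hmin).and (eventually_ge_atTop N)).exists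
  have hkδ := hk1.trans_le (min_le_left _ _)
  have hkε := hk1.trans_le (min_le_right _ _)
  have hk : N ≤ (m + 1) * k := hk2.trans (Nat.le_mul_of_pos_left k (Nat.succ_pos m))
  have hkm : k ≤ (m + 1) * k := Nat.le_mul_of_pos_left k (Nat.succ_pos m)
  have hr0 : (0 : ℝ) ≤ 2⁻¹ ^ k := by positivity
  have n2 : ‖(2⁻¹ : ℂ) ^ k‖ ≤ 2⁻¹ ^ k := by
    rw [norm_pow, norm_inv]; norm_num
  have n4 : ‖(4⁻¹ : ℂ) ^ k‖ ≤ 2⁻¹ ^ k := by
    rw [norm_pow, norm_inv]
    have : ‖(4 : ℂ)‖⁻¹ ≤ (2⁻¹ : ℝ) := by norm_num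
    gcongr
  have n2m : ‖(2⁻¹ : ℂ) ^ ((m + 1) * k)‖ ≤ 2⁻¹ ^ k := by
    rw [norm_pow, norm_inv, show ‖(2 : ℂ)‖ = 2 by norm_num]
    exact pow_le_pow_of_le_one (by norm_num) (by norm_num) hkm
  have n24 : ‖(2⁻¹ : ℂ) ^ ((m + 1) * k) * 4⁻¹ ^ k‖ ≤ 2⁻¹ ^ k := by
    rw [norm_mul]
    have h1 : ‖(4⁻¹ : ℂ) ^ k‖ ≤ 1 := n4.trans (pow_le_one₀ (by norm_num) (by norm_num))
    calc ‖(2⁻¹ : ℂ) ^ ((m + 1) * k)‖ * ‖(4⁻¹ : ℂ) ^ k‖ ≤ 2⁻¹ ^ k * 1 := by gcongr
      _ = 2⁻¹ ^ k := mul_one _
  refine ⟨vec z N m k a b, ?_, ?_⟩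
  · -- closeness
    rw [Metric.mem_ball, dist_eq_norm]
    have h1 : vec z N m k a b - z = (blk ((m + 1) * k) N (fun j => 2⁻¹ ^ k * a j) +
        blk (2 * ((m + 1) * k)) N (fun j => 4⁻¹ ^ k * b j)) - (z - blk 0 N z) := by
      rw [vec]; abel
    rw [h1]
    have h2 := norm_blk_smul_le ((m + 1) * k) N (2⁻¹ ^ k) _ n2 a
    have h3 := norm_blk_smul_le (2 * ((m + 1) * k)) N (4⁻¹ ^ k) _ n4 b
    have h4 : (2⁻¹ : ℝ) ^ k * ∑ j ∈ Finset.range N, ‖a j‖ +
        (2⁻¹ : ℝ) ^ k * ∑ j ∈ Finset.range N, ‖b j‖ ≤ 2⁻¹ ^ k * C := by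
      rw [← mul_add]
      gcongr
      linarith
    calc _ ≤ ‖blk ((m + 1) * k) N (fun j => 2⁻¹ ^ k * a j) +
        blk (2 * ((m + 1) * k)) N (fun j => 4⁻¹ ^ k * b j)‖ + ‖z - blk 0 N z‖ := norm_sub_le _ _
      _ ≤ (‖blk ((m + 1) * k) N (fun j => 2⁻¹ ^ k * a j)‖ +
        ‖blk (2 * ((m + 1) * k)) N (fun j => 4⁻¹ ^ k * b j)‖) + ‖z - blk 0 N z‖ := by
          gcongr; exact norm_add_le _ _
      _ < δ := by linarith
  · refine Set.mem_iUnion.2 ⟨(m + 1) * k, ?_, ?_, ?_, ?_⟩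
    · rw [vec1 hk ha hb]
      have h1 : blk 0 N p + blk ((m + 1) * k) N (fun j => 2⁻¹ ^ ((m + 1) * k) * q j) - p =
          blk ((m + 1) * k) N (fun j => 2⁻¹ ^ ((m + 1) * k) * q j) - (p - blk 0 N p) := by abel
      rw [h1]
      have h2 := norm_blk_smul_le ((m + 1) * k) N (2⁻¹ ^ ((m + 1) * k)) _ n2m q
      have h3 : (2⁻¹ : ℝ) ^ k * ∑ j ∈ Finset.range N, ‖q j‖ ≤ 2⁻¹ ^ k * C := by
        gcongr
        linarith
      calc _ ≤ ‖blk ((m + 1) * k) N (fun j => 2⁻¹ ^ ((m + 1) * k) * q j)‖ + ‖p - blk 0 N p‖ :=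
            norm_sub_le _ _
        _ < ε := by linarith
    · rw [vec2 hk hb, ← norm_neg, neg_sub]
      linarith
    · rw [vec3 hk ha hb]
      have h2 := norm_blk_smul_le 0 N (2⁻¹ ^ k) _ n2 (fun j => p j * a j)
      have h3 := norm_blk_smul_le ((m + 1) * k) N (2⁻¹ ^ ((m + 1) * k) * 4⁻¹ ^ k) _ n24
        (fun j => q j * b j)
      have h4 : (2⁻¹ : ℝ) ^ k * ∑ j ∈ Finset.range N, ‖p j * a j‖ +
        (2⁻¹ : ℝ) ^ k * ∑ j ∈ Finset.range N, ‖q j * b j‖ ≤ 2⁻¹ ^ k * C := by
        rw [← mul_add]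
        gcongr
        linarith
      refine (norm_add_le _ _).trans_lt ?_
      linarith
    · rw [vec4 hk hb]
      have h3 := norm_blk_smul_le 0 N (4⁻¹ ^ k) _ n4 (fun j => q j * b j)
      have h4 : (2⁻¹ : ℝ) ^ k * ∑ j ∈ Finset.range N, ‖q j * b j‖ ≤ 2⁻¹ ^ k * C := by
        gcongr
        linarith
      linarith

/-- By Baire's theorem there is a vector lying in all the sets `Op`. -/
lemma exists_vec : ∃ z : H, ∀ (m : ℕ) (p q : H) (ε : ℝ), 0 < ε → ∃ n : ℕ,
    ‖R^[n] (pw m z) - p‖ < ε ∧ ‖R^[2 * n] (pw m z) - q‖ < ε ∧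
    ‖R^[n] (pw (m + 1) z)‖ < ε ∧ ‖R^[2 * n] (pw (m + 1) z)‖ < ε := by
  have hd : Dense (⋂ t : ℕ × ℕ × ℕ × ℕ, Op t.1 (TopologicalSpace.denseSeq H t.2.1)
      (TopologicalSpace.denseSeq H t.2.2.1) (1 / ((t.2.2.2 : ℝ) + 1))) := by
    refine dense_iInter_of_isOpen (fun t => isOpen_Op _ _ _ _) (fun t => dense_Op _ _ _ ?_)
    positivity
  obtain ⟨z, hz⟩ := hd.nonempty
  refine ⟨z, fun m p q ε hε => ?_⟩
  obtain ⟨k, hk⟩ := exists_nat_one_div_lt (half_pos hε)
  obtain ⟨i, hi⟩ := (TopologicalSpace.denseRange_denseSeq H).exists_dist_lt p (half_pos hε)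
  obtain ⟨j, hj⟩ := (TopologicalSpace.denseRange_denseSeq H).exists_dist_lt q (half_pos hε)
  have h1 := Set.mem_iInter.1 hz (m, i, j, k)
  obtain ⟨n, hn1, hn2, hn3, hn4⟩ := Set.mem_iUnion.1 h1
  simp only at hn1 hn2 hn3 hn4
  rw [dist_comm, dist_eq_norm] at hi hj
  refine ⟨n, ?_, ?_, by linarith, by linarith⟩
  · calc ‖R^[n] (pw m z) - p‖ = ‖(R^[n] (pw m z) - TopologicalSpace.denseSeq H i) +
          (TopologicalSpace.denseSeq H i - p)‖ := by congr 1; abel
      _ ≤ _ := norm_add_le _ _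
      _ < ε := by linarith
  · calc ‖R^[2 * n] (pw m z) - q‖ = ‖(R^[2 * n] (pw m z) - TopologicalSpace.denseSeq H j) +
          (TopologicalSpace.denseSeq H j - q)‖ := by congr 1; abel
      _ ≤ _ := norm_add_le _ _
      _ < ε := by linarith

lemma T1_iter_zero_vec (n : ℕ) : T1^[n] (0 : H) = 0 := by
  induction n with
  | zero => rfl
  | succ n ih => rw [Function.iterate_succ_apply', ih, map_zero]

open Polynomial in
/-- If `y = P(z)` for a nonzero polynomial `P` with `P(0) = 0`, then `(0, y)` is hypercyclic. -/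
lemma dense_orbit {z : H} (hz : ∀ (m : ℕ) (p q : H) (ε : ℝ), 0 < ε → ∃ n : ℕ,
    ‖R^[n] (pw m z) - p‖ < ε ∧ ‖R^[2 * n] (pw m z) - q‖ < ε ∧
    ‖R^[n] (pw (m + 1) z)‖ < ε ∧ ‖R^[2 * n] (pw (m + 1) z)‖ < ε)
    {P : ℂ[X]} (hP : P ≠ 0) (hP0 : P.coeff 0 = 0) {y : H} (hy : ∀ i, y i = P.eval (z i)) :
    Dense (Set.range fun n : ℕ => T^[n] ((0, y) : H × H)) := by
  -- decompose `P`
  obtain ⟨m, c, Q, hc, hPQ⟩ : ∃ (m : ℕ) (c : ℂ) (Q : ℂ[X]), c ≠ 0 ∧
      ∀ t : ℂ, P.eval t = c * t ^ (m + 1) + t ^ (m + 2) * Q.eval t := by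
    obtain ⟨q, hq1, hq2⟩ := Polynomial.exists_eq_pow_rootMultiplicity_mul_and_not_dvd P hP 0
    have hroot : P.IsRoot 0 := by
      rw [Polynomial.IsRoot, ← Polynomial.coeff_zero_eq_eval_zero]; exact hP0
    have hpos : 0 < P.rootMultiplicity 0 := (Polynomial.rootMultiplicity_pos hP).2 hroot
    obtain ⟨m, hm⟩ : ∃ m, P.rootMultiplicity 0 = m + 1 := ⟨P.rootMultiplicity 0 - 1, by omega⟩
    refine ⟨m, q.coeff 0, q.divX, ?_, fun t => ?_⟩
    · intro h
      apply hq2
      rw [C_0, sub_zero]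
      exact Polynomial.X_dvd_iff.2 h
    · have h2 := congrArg (Polynomial.eval t) q.divX_mul_X_add
      simp only [Polynomial.eval_add, Polynomial.eval_mul, Polynomial.eval_X,
        Polynomial.eval_C] at h2
      have h3 := congrArg (Polynomial.eval t) hq1
      rw [hm, C_0, sub_zero, Polynomial.eval_mul, Polynomial.eval_pow, Polynomial.eval_X, ← h2]
        at h3
      rw [h3]
      ring
  obtain ⟨C0, hC0⟩ := (isCompact_closedBall (0 : ℂ) ‖z‖).exists_bound_of_continuousOn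
    (f := fun t => Q.eval t) Q.continuous.continuousOn
  set C := max C0 0 with hC
  have hCnn : 0 ≤ C := le_max_right _ _
  have hCb : ∀ i, ‖Q.eval (z i)‖ ≤ C := fun i =>
    (hC0 (z i) (by rw [mem_closedBall_zero_iff]; exact apply_le z i)).trans (le_max_left _ _)
  have happrox : ∀ n : ℕ, ‖R^[n] y - c • R^[n] (pw m z)‖ ≤ C * ‖R^[n] (pw (m + 1) z)‖ := by
    intro n
    have h1 : ‖(C : ℂ) • R^[n] (pw (m + 1) z)‖ = C * ‖R^[n] (pw (m + 1) z)‖ := by
      rw [norm_smul, Complex.norm_real, Real.norm_eq_abs, abs_of_nonneg hCnn]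
    rw [← h1]
    refine lp.norm_mono (by norm_num) fun i => ?_
    change ‖(R^[n] y) i - c * (R^[n] (pw m z)) i‖ ≤ ‖(C : ℂ) * (R^[n] (pw (m + 1) z)) i‖
    rw [R_iter, R_iter, R_iter, pw_apply, pw_apply, hy, hPQ]
    have h2 : (2 : ℂ) ^ n * (c * z (n + i) ^ (m + 1) + z (n + i) ^ (m + 2) * Q.eval (z (n + i))) -
        c * (2 ^ n * z (n + i) ^ (m + 1)) =
        Q.eval (z (n + i)) * (2 ^ n * z (n + i) ^ (m + 1 + 1)) := by ring
    rw [h2, norm_mul, norm_mul (C : ℂ), Complex.norm_real, Real.norm_eq_abs, abs_of_nonneg hCnn]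
    gcongr
    exact hCb _
  -- density
  change DenseRange _
  rw [Metric.denseRange_iff]
  rintro ⟨g, h⟩ η hη
  obtain ⟨r, hr⟩ := dense_range_K.exists_dist_lt g (half_pos hη)
  rw [dist_eq_norm] at hr
  set A : ℝ := (2 * ‖K‖ + 1) * (C + ‖c‖ + 1) with hA
  have hApos : 0 < A := by positivity
  set ε : ℝ := η / 2 / A with hε
  have hεpos : 0 < ε := by positivity
  obtain ⟨n, h1, h2, h3, h4⟩ := hz m (c⁻¹ • (h + r)) (c⁻¹ • h) ε hεpos
  have hcc : c * c⁻¹ = 1 := mul_inv_cancel₀ hc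
  have k1 : ‖R^[n] y - (h + r)‖ ≤ (C + ‖c‖ + 1) * ε := by
    have e1 : R^[n] y - (h + r) = (R^[n] y - c • R^[n] (pw m z)) +
        c • (R^[n] (pw m z) - c⁻¹ • (h + r)) := by
      rw [smul_sub, smul_smul, hcc, one_smul]; abel
    rw [e1]
    refine (norm_add_le _ _).trans ?_
    rw [norm_smul]
    have := happrox n
    have h5 : C * ‖R^[n] (pw (m + 1) z)‖ ≤ C * ε := by gcongr
    have h6 : ‖c‖ * ‖R^[n] (pw m z) - c⁻¹ • (h + r)‖ ≤ ‖c‖ * ε := by gcongr
    nlinarith
  have k2 : ‖R^[2 * n] y - h‖ ≤ (C + ‖c‖ + 1) * ε := by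
    have e1 : R^[2 * n] y - h = (R^[2 * n] y - c • R^[2 * n] (pw m z)) +
        c • (R^[2 * n] (pw m z) - c⁻¹ • h) := by
      rw [smul_sub, smul_smul, hcc, one_smul]; abel
    rw [e1]
    refine (norm_add_le _ _).trans ?_
    rw [norm_smul]
    have := happrox (2 * n)
    have h5 : C * ‖R^[2 * n] (pw (m + 1) z)‖ ≤ C * ε := by gcongr
    have h6 : ‖c‖ * ‖R^[2 * n] (pw m z) - c⁻¹ • h‖ ≤ ‖c‖ * ε := by gcongr
    nlinarith
  have hAε : A * ε = η / 2 := by rw [hε]; field_simp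
  have hK0 : 0 ≤ ‖K‖ := norm_nonneg _
  have hD0 : 0 ≤ (C + ‖c‖ + 1) * ε := by positivity
  refine ⟨n, ?_⟩
  rw [dist_comm, dist_eq_norm, T_iter, T1_iter_zero_vec, zero_add]
  change ‖(K (R^[n] y) - K (R^[2 * n] y) - g, R^[2 * n] y - h)‖ < η
  rw [Prod.norm_def, max_lt_iff]
  constructor
  · have e1 : K (R^[n] y) - K (R^[2 * n] y) - g =
        K (R^[n] y - (h + r)) - K (R^[2 * n] y - h) - (g - K r) := by
      simp only [map_sub, map_add]; abel
    change ‖K (R^[n] y) - K (R^[2 * n] y) - g‖ < η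
    rw [e1]
    have l1 : ‖K (R^[n] y - (h + r))‖ ≤ ‖K‖ * ((C + ‖c‖ + 1) * ε) :=
      (K.le_opNorm _).trans (by gcongr)
    have l2 : ‖K (R^[2 * n] y - h)‖ ≤ ‖K‖ * ((C + ‖c‖ + 1) * ε) :=
      (K.le_opNorm _).trans (by gcongr)
    have l3 : 2 * (‖K‖ * ((C + ‖c‖ + 1) * ε)) ≤ η / 2 := by
      rw [← hAε, hA]
      nlinarith
    calc _ ≤ ‖K (R^[n] y - (h + r)) - K (R^[2 * n] y - h)‖ + ‖g - K r‖ := norm_sub_le _ _
      _ ≤ (‖K (R^[n] y - (h + r))‖ + ‖K (R^[2 * n] y - h)‖) + ‖g - K r‖ := by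
          gcongr; exact norm_sub_le _ _
      _ < η := by linarith
  · change ‖R^[2 * n] y - h‖ < η
    have l3 : (C + ‖c‖ + 1) * ε ≤ η / 2 := by
      rw [← hAε, hA]
      nlinarith
    linarith

open Polynomial in
/-- Elements of the subalgebra generated by `(0, z)` are of the form `(0, P(z))`. -/
lemma mem_adjoin {z : H} {w : H × H} (hw : w ∈ NonUnitalAlgebra.adjoin ℂ {((0, z) : H × H)}) :
    ∃ P : ℂ[X], P.coeff 0 = 0 ∧ w.1 = 0 ∧ ∀ i, w.2 i = P.eval (z i) := by
  induction hw using NonUnitalAlgebra.adjoin_induction with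
  | mem x hx =>
    rw [Set.mem_singleton_iff] at hx
    subst hx
    exact ⟨X, by simp, rfl, fun i => by simp⟩
  | add x y _ _ hx hy =>
    obtain ⟨P, h1, h2, h3⟩ := hx
    obtain ⟨Q, g1, g2, g3⟩ := hy
    refine ⟨P + Q, by simp [h1, g1], by simp [h2, g2], fun i => ?_⟩
    rw [Polynomial.eval_add, ← h3, ← g3]
    rfl
  | zero => exact ⟨0, by simp, rfl, fun i => by simp⟩
  | mul x y _ _ hx hy =>
    obtain ⟨P, h1, h2, h3⟩ := hx
    obtain ⟨Q, g1, g2, g3⟩ := hy
    refine ⟨P * Q, by simp [Polynomial.mul_coeff_zero, h1], by simp [h2], fun i => ?_⟩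
    rw [Polynomial.eval_mul, ← h3, ← g3]
    rfl
  | smul r x _ hx =>
    obtain ⟨P, h1, h2, h3⟩ := hx
    refine ⟨C r * P, by simp [h1], by simp [h2], fun i => ?_⟩
    rw [Polynomial.eval_mul, Polynomial.eval_C, ← h3]
    rfl

/-! ### The set of generators is nowhere dense -/

/-- `a ↦ ∑ aᵢ²` is continuous on `ℓ²`. -/
lemma continuous_Q : Continuous fun a : H => ∑' i, a i * a i := by
  have h : (fun a : H => ∑' i, a i * a i) = fun a : H => inner ℂ (star a) a := by
    funext a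
    rw [lp.inner_eq_tsum]
    refine tsum_congr fun i => ?_
    rw [lp.star_apply, RCLike.inner_apply]
    simp
  rw [h]
  exact Continuous.inner continuous_star continuous_id

lemma summable_mul_self (a : H) : Summable fun i => a i * a i :=
  Summable.of_norm ((summable_sq a).congr fun i => by rw [norm_mul, sq])

lemma Q_add (a : H) (t : ℂ) : ∑' i, (a + t • e0) i * (a + t • e0) i =
    ∑' i, a i * a i + (2 * t * a 0 + t ^ 2) := by
  rw [(summable_mul_self (a + t • e0)).tsum_eq_zero_add, (summable_mul_self a).tsum_eq_zero_add]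
  have h0 : (a + t • e0) 0 = a 0 + t * e0 0 := rfl
  have h1 : ∀ i, (a + t • e0) (i + 1) = a (i + 1) + t * e0 (i + 1) := fun i => rfl
  simp only [h0, h1, e0_apply_zero, e0_apply_succ, mul_zero, add_zero, mul_one]
  ring

lemma norm_e0 : ‖e0‖ = 1 := by
  rw [e0, lp.norm_single (by norm_num), norm_one]

lemma gen_subset : Gen0 T ⊆ {x : H × H | ∑' i, x.1 i * x.1 i = 0} := by
  rintro ⟨a, b⟩ ⟨hx0, hx⟩
  refine tsum_sq_eq_zero a b ?_
  refine hx ((a, b) * (a, b)) ?_ ?_
  · exact mul_mem (NonUnitalAlgebra.subset_adjoin ℂ (Set.mem_singleton _))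
      (NonUnitalAlgebra.subset_adjoin ℂ (Set.mem_singleton _))
  · intro h
    apply hx0
    have h1 : a * a = 0 := congrArg Prod.fst h
    have h2 : b * b = 0 := congrArg Prod.snd h
    have key : ∀ x : H, x * x = 0 → x = 0 := by
      intro x hx
      ext i
      have : (x * x) i = 0 := by rw [hx]; rfl
      rw [mul_apply] at this
      exact mul_self_eq_zero.1 this
    rw [key a h1, key b h2]
    rfl

lemma isNowhereDense_gen : IsNowhereDense (Gen0 T) := by
  have hclosed : IsClosed {x : H × H | ∑' i, x.1 i * x.1 i = 0} :=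
    isClosed_eq (continuous_Q.comp continuous_fst) continuous_const
  have h1 : closure (Gen0 T) ⊆ {x : H × H | ∑' i, x.1 i * x.1 i = 0} :=
    closure_minimal gen_subset hclosed
  rw [IsNowhereDense, Set.eq_empty_iff_forall_notMem]
  intro x hx
  have h2 := interior_mono h1 hx
  rw [mem_interior_iff_mem_nhds, Metric.mem_nhds_iff] at h2
  obtain ⟨ε, hε, hball⟩ := h2
  have hx0 : ∑' i, x.1 i * x.1 i = 0 := hball (Metric.mem_ball_self hε)
  have key : ∀ t : ℝ, 0 < t → t < ε → 2 * (t : ℂ) * x.1 0 + (t : ℂ) ^ 2 = 0 := by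
    intro t ht0 htε
    have h3 : (x.1 + (t : ℂ) • e0, x.2) ∈ Metric.ball x ε := by
      rw [Metric.mem_ball, dist_eq_norm]
      have h4 : ((x.1 + (t : ℂ) • e0, x.2) : H × H) - x = ((t : ℂ) • e0, 0) := by
        ext1
        · change x.1 + (t : ℂ) • e0 - x.1 = _
          abel
        · change x.2 - x.2 = 0
          abel
      rw [h4, Prod.norm_def]
      simp only [norm_smul, norm_e0, norm_zero]
      rw [Complex.norm_real, Real.norm_eq_abs, abs_of_pos ht0, mul_one, max_eq_left ht0.le]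
      exact htε
    have h5 := hball h3
    rw [Set.mem_ofPred_eq] at h5
    simp only at h5
    rw [Q_add, hx0, zero_add] at h5
    exact h5
  have k1 := key (ε / 2) (by linarith) (by linarith)
  have k2 := key (ε / 3) (by linarith) (by linarith)
  have hεc : (ε : ℂ) ≠ 0 := by exact_mod_cast hε.ne'
  push_cast at k1 k2
  have k3 : 2 * x.1 0 = -(ε / 2 : ℂ) := by
    have : (ε / 2 : ℂ) * (2 * x.1 0 + ε / 2) = 0 := by linear_combination k1
    rcases mul_eq_zero.1 this with h | h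
    · exact absurd h (div_ne_zero hεc two_ne_zero)
    · linear_combination h
  have k4 : 2 * x.1 0 = -(ε / 3 : ℂ) := by
    have : (ε / 3 : ℂ) * (2 * x.1 0 + ε / 3) = 0 := by linear_combination k2
    rcases mul_eq_zero.1 this with h | h
    · exact absurd h (div_ne_zero hεc three_ne_zero)
    · linear_combination h
  have k5 : (ε : ℂ) = 0 := by linear_combination 6 * (k3 - k4)
  exact hεc k5

open Polynomial in
/-- There is a generator whose (hypercyclic) algebra is infinite-dimensional. -/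
lemma exists_gen : ∃ x ∈ Gen0 T, ¬ FiniteDimensional ℂ (NonUnitalAlgebra.adjoin ℂ {x}) := by
  obtain ⟨z, hz⟩ := exists_vec
  -- no nonzero polynomial without constant term vanishes at `z`
  have hnz : ∀ P : ℂ[X], P ≠ 0 → P.coeff 0 = 0 → ∃ i, P.eval (z i) ≠ 0 := by
    intro P hP hP0
    by_contra hcon
    push Not at hcon
    have h1 := dense_orbit hz hP hP0 (y := 0) (fun i => by rw [hcon]; rfl)
    have h2 : (Set.range fun n : ℕ => T^[n] ((0, 0) : H × H)) = {0} := by
      ext w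
      constructor
      · rintro ⟨n, rfl⟩
        change T^[n] (0, 0) = 0
        have : ∀ n : ℕ, T^[n] (0 : H × H) = 0 := by
          intro n
          induction n with
          | zero => rfl
          | succ n ih => rw [Function.iterate_succ_apply', ih, map_zero]
        exact this n
      · intro hw
        rw [Set.mem_singleton_iff] at hw
        exact ⟨0, hw.symm⟩
    rw [h2] at h1
    have h3 : closure ({0} : Set (H × H)) = {0} := isClosed_singleton.closure_eq
    have h4 : ((e0, 0) : H × H) ∈ closure ({0} : Set (H × H)) := h1 _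
    rw [h3, Set.mem_singleton_iff] at h4
    have h5 : e0 = 0 := congrArg Prod.fst h4
    have h6 := norm_e0
    rw [h5, norm_zero] at h6
    exact zero_ne_one h6
  refine ⟨(0, z), ⟨?_, ?_⟩, ?_⟩
  · intro h
    have h1 : z = 0 := congrArg Prod.snd h
    obtain ⟨i, hi⟩ := hnz X X_ne_zero (by simp)
    apply hi
    rw [h1]
    simp
  · intro w hw hw0
    obtain ⟨P, h1, h2, h3⟩ := mem_adjoin hw
    have hP : P ≠ 0 := by
      rintro rfl
      apply hw0
      ext1
      · exact h2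
      · ext i
        rw [h3]
        simp
    have h4 : w = (0, w.2) := by rw [← h2]
    rw [h4]
    exact dense_orbit hz hP h1 h3
  · intro hfd
    -- the powers of `(0, z)` are linearly independent
    have hmem : ∀ k : ℕ, ((0, pw k z) : H × H) ∈ NonUnitalAlgebra.adjoin ℂ {((0, z) : H × H)} := by
      intro k
      induction k with
      | zero => exact NonUnitalAlgebra.subset_adjoin ℂ (Set.mem_singleton _)
      | succ k ih =>
        have h1 : ((0, pw (k + 1) z) : H × H) = (0, z) * (0, pw k z) := by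
          ext1
          · exact (zero_mul (0 : H)).symm
          · rfl
        rw [h1]
        exact mul_mem (NonUnitalAlgebra.subset_adjoin ℂ (Set.mem_singleton _)) ih
    have hli : LinearIndependent ℂ (fun k : ℕ => ((0, pw k z) : H × H)) := by
      rw [linearIndependent_iff']
      intro s g hg
      by_contra hcon
      push Not at hcon
      obtain ⟨k, hk, hgk⟩ := hcon
      set P : ℂ[X] := ∑ j ∈ s, C (g j) * X ^ (j + 1) with hPdef
      have hcoeff : P.coeff (k + 1) = g k := by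
        rw [hPdef, Polynomial.finsetSum_coeff, Finset.sum_eq_single k]
        · simp
        · intro j _ hj
          rw [Polynomial.coeff_C_mul, Polynomial.coeff_X_pow, if_neg (by omega), mul_zero]
        · intro h; exact absurd hk h
      have hP : P ≠ 0 := by
        intro h
        rw [h, Polynomial.coeff_zero] at hcoeff
        exact hgk hcoeff.symm
      have hP0 : P.coeff 0 = 0 := by
        rw [hPdef, Polynomial.finsetSum_coeff]
        refine Finset.sum_eq_zero fun j _ => ?_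
        simp
      obtain ⟨i, hi⟩ := hnz P hP hP0
      apply hi
      have h1 := congrArg (((lp.evalCLM ℂ (fun _ : ℕ => ℂ) 2 i).comp
        (ContinuousLinearMap.snd ℂ H H))) hg
      rw [map_sum, map_zero] at h1
      rw [hPdef, Polynomial.eval_finsetSum, ← h1]
      refine Finset.sum_congr rfl fun j _ => ?_
      rw [map_smul, Polynomial.eval_mul, Polynomial.eval_C, Polynomial.eval_pow,
        Polynomial.eval_X, smul_eq_mul]
      congr 1
      exact (pw_apply j z i).symm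
    have hli2 : LinearIndependent ℂ (fun k : ℕ =>
        (⟨(0, pw k z), hmem k⟩ : NonUnitalAlgebra.adjoin ℂ {((0, z) : H × H)})) :=
      LinearIndependent.of_comp (NonUnitalAlgebra.adjoin ℂ {((0, z) : H × H)}).toSubmodule.subtype
        hli
    have hfin : Finite ℕ := hli2.finite
    exact not_finite ℕ

lemma not_dense_gen : ¬ Dense (Gen0 T) := by
  intro h
  have h1 := isNowhereDense_gen
  rw [IsNowhereDense, h.closure_eq, interior_univ] at h1
  exact Set.univ_nonempty.ne_empty h1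

lemma reduced (x : H × H) (h : x * x = 0) : x = 0 := by
  have key : ∀ x : H, x * x = 0 → x = 0 := by
    intro x hx
    ext i
    have : (x * x) i = 0 := by rw [hx]; rfl
    rw [mul_apply] at this
    exact mul_self_eq_zero.1 this
  obtain ⟨a, b⟩ := x
  rw [key a (congrArg Prod.fst h), key b (congrArg Prod.snd h)]
  rfl

end Pool.Agent.Helper27.HypAlg
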