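import Mathlib

set_option autoImplicit false

/-!
# Functional-analytic part: Pełczyński decomposition for `C(L)`, `L ≅ A × L`.
-/

namespace Pool.Agent.Helper27.WC

open ContinuousMap

/-- The index set of the one point compactification. -/
abbrev I0 : Type := ℕ ⊕ ℝ

/-- The one point compactification of the discrete set `I0`. -/
def ASet : Set (I0 → Bool) := {s | ∀ i j, s i = true → s j = true → i = j}

abbrev A : Type := ↥ASet

theorem isClosed_ASet : IsClosed ASet := by
  have : ASet = ⋂ (i : I0) (j : I0) (_ : i ≠ j), {s : I0 → Bool | ¬ (s i = true ∧ s j = true)} := by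
    ext s
    simp only [ASet, Set.mem_ofPred_eq, Set.mem_iInter]
    constructor
    · intro h i j hij ⟨h1, h2⟩
      exact hij (h i j h1 h2)
    · intro h i j h1 h2
      by_contra hij
      exact h i j hij ⟨h1, h2⟩
  rw [this]
  refine isClosed_iInter fun i => isClosed_iInter fun j => isClosed_iInter fun _ => ?_
  exact (((isOpen_discrete ({true} : Set Bool)).preimage
      (continuous_apply (A := fun _ : I0 => Bool) i)).inter
    ((isOpen_discrete ({true} : Set Bool)).preimage
      (continuous_apply (A := fun _ : I0 => Bool) j))).isClosed_compl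

instance : CompactSpace A := isCompact_iff_compactSpace.mp isClosed_ASet.isCompact

/-- the shift on indices -/
def tau : I0 → I0
  | .inl n => .inl (n+1)
  | .inr r => .inr r

theorem tau_inj : Function.Injective tau := by
  intro x y h
  cases x <;> cases y <;> simp_all [tau]

theorem tau_ne (i : I0) : tau i ≠ .inl 0 := by
  cases i <;> simp [tau]

/-- partial inverse of the shift -/
def sig : I0 → I0
  | .inl 0 => .inl 0
  | .inl (n+1) => .inl n
  | .inr r => .inr r

theorem sig_tau (i : I0) : sig (tau i) = i := by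
  cases i <;> simp [tau, sig]

theorem tau_sig {i : I0} (h : i ≠ .inl 0) : tau (sig i) = i := by
  rcases i with (_ | n) | r
  · exact absurd rfl h
  · rfl
  · rfl

/-- the point at infinity -/
def a0 : A := ⟨fun _ => false, by intro i j h; simp at h⟩

/-- the isolated point with index `inl 0`. -/
noncomputable def e0 : A := ⟨fun i => decide (i = .inl 0), by
  intro i j h1 h2
  simp only [decide_eq_true_eq] at h1 h2
  rw [h1, h2]⟩

/-- push forward along `tau` -/
noncomputable def push : C(A, A) where
  toFun s := ⟨fun i => decide (i ≠ .inl 0) && s.1 (sig i), by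
    intro i j h1 h2
    simp only [Bool.and_eq_true, decide_eq_true_eq] at h1 h2
    have := s.2 _ _ h1.2 h2.2
    rw [← tau_sig h1.1, ← tau_sig h2.1, this]⟩
  continuous_toFun := by
    refine Continuous.subtype_mk (continuous_pi fun i => ?_) _
    have h1 : Continuous fun s : A => s.1 (sig i) :=
      (continuous_apply _).comp continuous_subtype_val
    exact (continuous_of_discreteTopology (f := fun b : Bool => (decide (i ≠ .inl 0) && b))).comp h1

/-- pull back along `tau` -/
def pull : C(A, A) where
  toFun s := ⟨fun i => s.1 (tau i), fun i j h1 h2 => tau_inj (s.2 _ _ h1 h2)⟩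
  continuous_toFun := by
    refine Continuous.subtype_mk (continuous_pi fun i => ?_) _
    exact (continuous_apply _).comp continuous_subtype_val

theorem pull_push (s : A) : pull (push s) = s := by
  apply Subtype.ext
  funext i
  simp [pull, push, tau_ne, sig_tau]

theorem push_pull {s : A} (h : s.1 (.inl 0) = false) : push (pull s) = s := by
  apply Subtype.ext
  funext i
  by_cases hi : i = .inl 0
  · subst hi; simp [push, h]
  · simp [push, pull, hi, tau_sig hi]

theorem eq_e0 {s : A} (h : s.1 (.inl 0) = true) : s = e0 := by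
  apply Subtype.ext
  funext i
  by_cases hi : i = .inl 0
  · subst hi; simp [e0, h]
  · simp only [e0, hi, decide_false]
    by_contra hc
    simp only [Bool.not_eq_false] at hc
    exact hi (s.2 _ _ hc h)

theorem pull_e0 : pull e0 = a0 := by
  apply Subtype.ext
  funext i
  simp [pull, e0, a0, tau_ne]

theorem pull_a0 : pull a0 = a0 := rfl

theorem push_a0 : push a0 = a0 := by
  apply Subtype.ext
  funext i
  simp [push, a0]

theorem push_val_zero (s : A) : (push s).1 (.inl 0) = false := by
  simp [push]

/-- indicator function of the isolated point -/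
def chi : C(A, ℝ) where
  toFun s := if s.1 (.inl 0) = true then 1 else 0
  continuous_toFun := by
    have h1 : Continuous fun s : A => s.1 (.inl 0) :=
      (continuous_apply _).comp continuous_subtype_val
    exact (continuous_of_discreteTopology (f := fun b : Bool => (if b = true then (1:ℝ) else 0))).comp h1

theorem chi_one {s : A} (h : s.1 (.inl 0) = true) : chi s = 1 := if_pos h

theorem chi_zero {s : A} (h : s.1 (.inl 0) = false) : chi s = 0 := by
  change (if s.1 (.inl 0) = true then (1:ℝ) else 0) = 0
  rw [h]; simp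

section

variable (Z : Type) [NormedAddCommGroup Z] [NormedSpace ℝ Z]

/-- `z ↦ (s ↦ chi s • z)` as a continuous linear map -/
noncomputable def chiMul : Z →L[ℝ] C(A, Z) :=
  LinearMap.mkContinuous
    { toFun := fun z => ⟨fun s => chi s • z, chi.continuous.smul continuous_const⟩
      map_add' := by intro x y; ext s; simp
      map_smul' := by intro c x; ext s; simp [smul_comm c (chi s) x] } 1 (by
    intro z
    rw [one_mul]
    refine (ContinuousMap.norm_le _ (norm_nonneg z)).2 fun s => ?_
    change ‖chi s • z‖ ≤ ‖z‖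
    rw [norm_smul]
    have : ‖chi s‖ ≤ 1 := by
      change ‖(if s.1 (.inl 0) = true then (1:ℝ) else 0)‖ ≤ 1
      split_ifs <;> simp
    calc ‖chi s‖ * ‖z‖ ≤ 1 * ‖z‖ := by gcongr
      _ = ‖z‖ := one_mul _)

theorem chiMul_apply (z : Z) (s : A) : chiMul Z z s = chi s • z := rfl

/-- `C(A, Z) ≅ Z × C(A, Z)` -/
noncomputable def splitA : C(A, Z) ≃L[ℝ] Z × C(A, Z) :=
  ContinuousLinearEquiv.equivOfInverse
    ((ContinuousMap.evalCLM ℝ e0).prod (ContinuousMap.compCLM ℝ Z push))
    (((chiMul Z).comp (ContinuousLinearMap.fst ℝ Z C(A, Z))) +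
      ((ContinuousMap.compCLM ℝ Z pull) - (chiMul Z).comp (ContinuousMap.evalCLM ℝ a0)).comp
        (ContinuousLinearMap.snd ℝ Z C(A, Z)))
    (by
      intro f
      ext s
      change chi s • f e0 + (f (push (pull s)) - chi s • f (push a0)) = f s
      rw [push_a0]
      by_cases h : s.1 (.inl 0) = true
      · have hc : chi s = 1 := if_pos h
        rw [hc, eq_e0 h, pull_e0, push_a0]
        simp
      · have hc : chi s = 0 := if_neg h
        rw [hc, push_pull (by simpa using h)]
        simp)
    (by
      rintro ⟨z, h⟩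
      refine Prod.ext ?_ ?_
      · change chi e0 • z + (h (pull e0) - chi e0 • h a0) = z
        have hc : chi e0 = 1 := chi_one (by simp [e0])
        rw [hc, pull_e0]
        simp
      · ext s
        change chi (push s) • z + (h (pull (push s)) - chi (push s) • h a0) = h s
        have hc : chi (push s) = 0 := chi_zero (push_val_zero s)
        rw [hc, pull_push]
        simp)

end

/-- The decomposition argument. -/
theorem decomposition (X Y : Type) [NormedAddCommGroup X] [NormedSpace ℝ X]
    [NormedAddCommGroup Y] [NormedSpace ℝ Y]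
    (hY : Nonempty (Y ≃L[ℝ] C(A, Y)))
    (j : Y →L[ℝ] X) (s : X →L[ℝ] Y) (hsj : Function.RightInverse j s)
    (i : X →L[ℝ] Y) (r : Y →L[ℝ] X) (hri : Function.RightInverse i r) :
    Nonempty (X ≃L[ℝ] Y) := by
  obtain ⟨e⟩ := hY
  -- X ≅ Y × B
  let e1 : X ≃L[ℝ] Y × s.ker := ContinuousLinearEquiv.equivOfRightInverse s j hsj
  -- Y ≅ Y × Y
  let e2 : Y ≃L[ℝ] Y × Y :=
    (e.trans (splitA Y)).trans ((ContinuousLinearEquiv.refl ℝ Y).prodCongr e.symm)
  -- C(A,Y) ≅ C(A,X) × N
  let i' : C(A, X) →L[ℝ] C(A, Y) := i.compLeftContinuous ℝ A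
  let r' : C(A, Y) →L[ℝ] C(A, X) := r.compLeftContinuous ℝ A
  have hri' : Function.RightInverse i' r' := by
    intro f
    ext a
    exact hri (f a)
  let e3 : C(A, Y) ≃L[ℝ] C(A, X) × r'.ker := ContinuousLinearEquiv.equivOfRightInverse r' i' hri'
  -- Y ≅ X × Y
  let e4 : Y ≃L[ℝ] X × Y :=
    ((((e.trans e3).trans ((splitA X).prodCongr (ContinuousLinearEquiv.refl ℝ r'.ker))).trans
      (ContinuousLinearEquiv.prodAssoc ℝ X C(A, X) r'.ker)).trans
      ((ContinuousLinearEquiv.refl ℝ X).prodCongr (e3.symm.trans e.symm)))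
  -- X ≅ Y × X
  let e5 : X ≃L[ℝ] Y × X :=
    ((e1.trans (e2.prodCongr (ContinuousLinearEquiv.refl ℝ s.ker))).trans
      (ContinuousLinearEquiv.prodAssoc ℝ Y Y s.ker)).trans
      ((ContinuousLinearEquiv.refl ℝ Y).prodCongr e1.symm)
  exact ⟨(e5.trans (ContinuousLinearEquiv.prodComm ℝ Y X)).trans e4.symm⟩

/-- `C(L) ≅ C(A, C(L))` when `L ≅ A × L`. -/
theorem curryEquiv (L : Type) [TopologicalSpace L] [CompactSpace L] [T2Space L] (h : L ≃ₜ A × L) :
    Nonempty (C(L, ℝ) ≃L[ℝ] C(A, C(L, ℝ))) := by
  let c : C(A × L, ℝ) ≃ₜ C(A, C(L, ℝ)) := Homeomorph.curry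
  let e1 : C(A × L, ℝ) ≃L[ℝ] C(A, C(L, ℝ)) :=
    { toFun := c
      invFun := c.symm
      left_inv := c.left_inv
      right_inv := c.right_inv
      map_add' := by intro f g; rfl
      map_smul' := by intro a f; rfl
      continuous_toFun := c.continuous
      continuous_invFun := c.symm.continuous }
  let e2 : C(L, ℝ) ≃L[ℝ] C(A × L, ℝ) :=
    ContinuousLinearEquiv.equivOfInverse
      (ContinuousMap.compCLM ℝ ℝ (⟨h.symm, h.symm.continuous⟩ : C(A × L, L)))
      (ContinuousMap.compCLM ℝ ℝ (⟨h, h.continuous⟩ : C(L, A × L)))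
      (by intro f; ext x; simp)
      (by intro f; ext x; simp)
  exact ⟨e2.trans e1⟩

/-- `C(K) ≅ C(K')` when `K ≅ K'`. -/
theorem equivOfHomeo {K K' : Type} [TopologicalSpace K] [CompactSpace K]
    [TopologicalSpace K'] [CompactSpace K'] (h : K ≃ₜ K') :
    Nonempty (C(K, ℝ) ≃L[ℝ] C(K', ℝ)) :=
  ⟨ContinuousLinearEquiv.equivOfInverse
      (ContinuousMap.compCLM ℝ ℝ (⟨h.symm, h.symm.continuous⟩ : C(K', K)))
      (ContinuousMap.compCLM ℝ ℝ (⟨h, h.continuous⟩ : C(K, K')))
      (by intro f; ext x; simp)
      (by intro f; ext x; simp)⟩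

end Pool.Agent.Helper27.WC
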