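import Mathlib

set_option autoImplicit false

/-!
# Randomised digit expansions in base `3/2`
-/

namespace Pool.Agent.Helper27.WC

open Filter Topology MeasureTheory Set

noncomputable def b2r (b : Bool) : ℝ := if b = true then 1 else 0

@[simp] theorem b2r_true : b2r true = 1 := by simp [b2r]
@[simp] theorem b2r_false : b2r false = 0 := by simp [b2r]

theorem b2r_nonneg (b : Bool) : 0 ≤ b2r b := by cases b <;> simp
theorem b2r_le_one (b : Bool) : b2r b ≤ 1 := by cases b <;> simp

theorem continuous_b2r : Continuous b2r := continuous_of_discreteTopology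

noncomputable def cc (n : ℕ) : ℝ := (1/3) * (2/3)^n

theorem cc_pos (n : ℕ) : 0 < cc n := by unfold cc; positivity

theorem hasSum_cc : HasSum cc 1 := by
  have h := hasSum_geometric_of_lt_one (r := (2/3 : ℝ)) (by norm_num) (by norm_num)
  have h2 := h.mul_left (1/3 : ℝ)
  have e : (1/3 : ℝ) * (1 - 2/3)⁻¹ = 1 := by norm_num
  rw [e] at h2
  exact h2

noncomputable def phi (t : ℕ → Bool) : ℝ := ∑' n, cc n * b2r (t n)

theorem phi_summable (t : ℕ → Bool) : Summable fun n => cc n * b2r (t n) := by
  refine Summable.of_nonneg_of_le (fun n => mul_nonneg (cc_pos n).le (b2r_nonneg _)) (fun n => ?_)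
    hasSum_cc.summable
  calc cc n * b2r (t n) ≤ cc n * 1 := by
        have := cc_pos n
        gcongr
        exact b2r_le_one _
    _ = cc n := mul_one _

theorem cc_mul_le_phi (t : ℕ → Bool) (n : ℕ) : cc n * b2r (t n) ≤ phi t :=
  (phi_summable t).le_tsum n fun m _ => mul_nonneg (cc_pos m).le (b2r_nonneg _)

theorem phi_nonneg (t : ℕ → Bool) : 0 ≤ phi t :=
  tsum_nonneg fun m => mul_nonneg (cc_pos m).le (b2r_nonneg _)

theorem phi_zero : phi (fun _ => false) = 0 := by simp [phi]

theorem continuous_phi : Continuous phi := by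
  refine continuous_tsum (u := cc) (fun n => ?_) hasSum_cc.summable (fun n t => ?_)
  · exact continuous_const.mul (continuous_b2r.comp (continuous_apply n))
  · rw [Real.norm_of_nonneg (mul_nonneg (cc_pos n).le (b2r_nonneg _))]
    calc cc n * b2r (t n) ≤ cc n * 1 := by
          have := cc_pos n
          gcongr
          exact b2r_le_one _
      _ = cc n := mul_one _

noncomputable def T (θ y : ℝ) : ℝ := if y < θ then (3/2)*y else (3/2)*(y - 1/3)

noncomputable def it (θ : ℝ) : ℕ → ℝ → ℝ
  | 0, u => u
  | n+1, u => T θ (it θ n u)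

noncomputable def dgt (θ u : ℝ) (n : ℕ) : Bool := decide (θ ≤ it θ n u)

theorem it_mem {θ u : ℝ} (h1 : 1/3 < θ) (h2 : θ < 2/3) (hu : u ∈ Icc (0:ℝ) 1) (n : ℕ) :
    it θ n u ∈ Icc (0:ℝ) 1 := by
  induction n with
  | zero => exact hu
  | succ n ih =>
    obtain ⟨ih1, ih2⟩ := ih
    simp only [it, T]
    split_ifs with h
    · constructor <;> linarith
    · constructor <;> linarith

theorem it_succ_eq (θ u : ℝ) (n : ℕ) :
    it θ n u = (1/3) * b2r (dgt θ u n) + (2/3) * it θ (n+1) u := by
  simp only [it, T, dgt]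
  by_cases h : it θ n u < θ
  · rw [if_pos h, decide_eq_false (not_le.2 h)]
    simp; ring
  · rw [if_neg h, decide_eq_true (not_lt.1 h)]
    simp; ring

theorem sum_dgt (θ u : ℝ) (n : ℕ) :
    ∑ k ∈ Finset.range n, cc k * b2r (dgt θ u k) = u - (2/3)^n * it θ n u := by
  induction n with
  | zero => simp [it]
  | succ n ih =>
    rw [Finset.sum_range_succ, ih, it_succ_eq θ u n]
    unfold cc
    ring

theorem phi_dgt {θ u : ℝ} (h1 : 1/3 < θ) (h2 : θ < 2/3) (hu : u ∈ Icc (0:ℝ) 1) :
    phi (dgt θ u) = u := by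
  have hs := (phi_summable (dgt θ u)).hasSum.tendsto_sum_nat
  refine tendsto_nhds_unique hs ?_
  simp_rw [sum_dgt]
  have hz : Tendsto (fun n => (2/3 : ℝ)^n * it θ n u) atTop (𝓝 0) := by
    refine squeeze_zero (fun n => mul_nonneg (by positivity) (it_mem h1 h2 hu n).1) (fun n => ?_)
      (tendsto_pow_atTop_nhds_zero_of_lt_one (r := (2/3 : ℝ)) (by norm_num) (by norm_num))
    calc (2/3 : ℝ)^n * it θ n u ≤ (2/3 : ℝ)^n * 1 := by
          gcongr
          exact (it_mem h1 h2 hu n).2
      _ = _ := mul_one _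
  simpa using tendsto_const_nhds.sub hz

theorem measurable_it (u : ℝ) (n : ℕ) : Measurable fun θ => it θ n u := by
  induction n with
  | zero => exact measurable_const
  | succ n ih =>
    simp only [it, T]
    exact Measurable.ite (measurableSet_lt ih measurable_id) (ih.const_mul _)
      ((ih.sub_const _).const_mul _)

theorem measurable_dgt (u : ℝ) (n : ℕ) : Measurable fun θ => b2r (dgt θ u n) := by
  have : (fun θ => b2r (dgt θ u n)) = fun θ => if θ ≤ it θ n u then (1:ℝ) else 0 := by
    funext θ
    by_cases h : θ ≤ it θ n u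
    · simp [dgt, h]
    · simp [dgt, h]
  rw [this]
  exact Measurable.ite (measurableSet_le measurable_id (measurable_it u n)) measurable_const
    measurable_const

theorem finite_it (u : ℝ) (n : ℕ) : (range fun θ => it θ n u).Finite := by
  induction n with
  | zero =>
    refine (finite_singleton u).subset ?_
    rintro _ ⟨θ, rfl⟩
    simp [it]
  | succ n ih =>
    refine ((ih.image fun y => (3/2)*y).union (ih.image fun y => (3/2)*(y - 1/3))).subset ?_
    rintro _ ⟨θ, rfl⟩
    simp only [it, T]
    split_ifs with h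
    · exact Or.inl ⟨_, ⟨θ, rfl⟩, rfl⟩
    · exact Or.inr ⟨_, ⟨θ, rfl⟩, rfl⟩

theorem continuousAt_T {θ y : ℝ} (h : y ≠ θ) : ContinuousAt (T θ) y := by
  rcases lt_or_gt_of_ne h with h | h
  · have : (fun y => (3/2)*y) =ᶠ[𝓝 y] T θ := by
      filter_upwards [eventually_lt_nhds h] with z hz
      simp [T, hz]
    exact ContinuousAt.congr (by fun_prop) this
  · have : (fun y => (3/2)*(y - 1/3)) =ᶠ[𝓝 y] T θ := by
      filter_upwards [eventually_gt_nhds h] with z hz
      simp [T, not_lt.2 hz.le]
    exact ContinuousAt.congr (by fun_prop) this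

theorem continuousAt_it {θ u : ℝ} {n : ℕ} (h : ∀ k < n, it θ k u ≠ θ) :
    ContinuousAt (it θ n) u := by
  induction n with
  | zero => exact continuousAt_id
  | succ n ih =>
    have h1 := ih fun k hk => h k (Nat.lt_succ_of_lt hk)
    exact ContinuousAt.comp (g := T θ) (f := it θ n) (continuousAt_T (h n (Nat.lt_succ_self n))) h1

theorem continuousAt_dgt {θ u : ℝ} {n : ℕ} (h : ∀ k ≤ n, it θ k u ≠ θ) :
    ContinuousAt (fun v => b2r (dgt θ v n)) u := by
  have h1 := continuousAt_it fun k (hk : k < n) => h k hk.le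
  rcases lt_or_gt_of_ne (h n le_rfl) with h2 | h2
  · have : (fun _ => (0:ℝ)) =ᶠ[𝓝 u] fun v => b2r (dgt θ v n) := by
      filter_upwards [h1.eventually (eventually_lt_nhds h2)] with v hv
      rw [dgt, decide_eq_false (not_le.2 hv)]
      simp
    exact ContinuousAt.congr continuousAt_const this
  · have : (fun _ => (1:ℝ)) =ᶠ[𝓝 u] fun v => b2r (dgt θ v n) := by
      filter_upwards [h1.eventually (eventually_gt_nhds h2)] with v hv
      rw [dgt, decide_eq_true hv.le]
      simp
    exact ContinuousAt.congr continuousAt_const this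

/-- the parameter measure -/
noncomputable def mu : Measure ℝ := volume.restrict (Ioo (1/3) (2/3))

instance : IsFiniteMeasure mu := by
  unfold mu
  refine ⟨?_⟩
  rw [Measure.restrict_apply_univ, Real.volume_Ioo]
  exact ENNReal.ofReal_lt_top

theorem mu_real_univ : mu.real univ = 1/3 := by
  unfold mu
  rw [measureReal_def, Measure.restrict_apply_univ, Real.volume_Ioo]
  norm_num

instance : NullSingletonClass mu := by unfold mu; infer_instance

theorem tendsto_dgt (u : ℝ) (n : ℕ) :
    Tendsto (fun v => ∫ θ, |b2r (dgt θ u n) - b2r (dgt θ v n)| ∂mu) (𝓝 u) (𝓝 0) := by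
  have h0 : (0:ℝ) = ∫ θ, (0:ℝ) ∂mu := by simp
  rw [h0]
  refine tendsto_integral_filter_of_dominated_convergence (fun _ => 1) ?_ ?_ ?_ ?_
  · exact Eventually.of_forall fun v =>
      ((measurable_dgt u n).sub (measurable_dgt v n)).abs.aestronglyMeasurable
  · refine Eventually.of_forall fun v => Eventually.of_forall fun θ => ?_
    rw [Real.norm_eq_abs, abs_abs, abs_le]
    have := b2r_nonneg (dgt θ u n)
    have := b2r_nonneg (dgt θ v n)
    have := b2r_le_one (dgt θ u n)
    have := b2r_le_one (dgt θ v n)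
    constructor <;> linarith
  · exact integrable_const _
  · have hfin : (⋃ k ∈ Finset.range (n+1), range fun θ => it θ k u).Finite :=
      (Finset.finite_toSet _).biUnion fun k _ => finite_it u k
    have hae : ∀ᵐ θ ∂mu, θ ∉ (⋃ k ∈ Finset.range (n+1), range fun θ => it θ k u) :=
      (measure_eq_zero_iff_ae_notMem).1 (hfin.measure_zero mu)
    filter_upwards [hae] with θ hθ
    have hc : ContinuousAt (fun v => b2r (dgt θ v n)) u := by
      refine continuousAt_dgt fun k hk he => hθ ?_
      simp only [mem_iUnion]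
      exact ⟨k, Finset.mem_range.2 (Nat.lt_succ_of_le hk), θ, he⟩
    have := (continuousAt_const (y := b2r (dgt θ u n))).sub hc
    have h2 := this.abs.tendsto
    simpa using h2

end Pool.Agent.Helper27.WC
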