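import Mathlib
import Pool.Agent.Helper27.WC1
import Pool.Agent.Helper27.WC2

set_option autoImplicit false

/-!
# The construction: the compact convex set `K₀ ⊆ ℝ^Γ` and the totally disconnected `L`.
-/

namespace Pool.Agent.Helper27.WC

open Filter Topology MeasureTheory Set

/-- The index set of coordinates. -/
inductive Gam : Type
  | base : ℕ → I0 → Gam
  | dig : Gam → ℕ → Gam
  | mul : Gam → Gam → Gam

/-- all digit systems -/
abbrev DD : Type := Gam → ℕ → Bool

/-- The coordinate functions -/
noncomputable def gg : Gam → (ℕ → A) → DD → ℝ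
  | .base k i, s, _ => b2r ((s k).1 i)
  | .dig γ n, _, d => b2r (d γ n)
  | .mul a b, s, d => gg a s d * gg b s d

theorem gg_nonneg (γ : Gam) (s : ℕ → A) (d : DD) : 0 ≤ gg γ s d := by
  induction γ with
  | base k i => exact b2r_nonneg _
  | dig γ n _ => exact b2r_nonneg _
  | mul a b iha ihb => exact mul_nonneg iha ihb

theorem gg_le_one (γ : Gam) (s : ℕ → A) (d : DD) : gg γ s d ≤ 1 := by
  induction γ with
  | base k i => exact b2r_le_one _
  | dig γ n _ => exact b2r_le_one _
  | mul a b iha ihb => exact mul_le_one₀ iha (gg_nonneg b s d) ihb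

theorem continuous_gg (γ : Gam) : Continuous fun m : (ℕ → A) × DD => gg γ m.1 m.2 := by
  induction γ with
  | base k i =>
    exact continuous_b2r.comp ((continuous_apply i).comp
      (continuous_subtype_val.comp ((continuous_apply k).comp continuous_fst)))
  | dig γ n _ =>
    exact continuous_b2r.comp ((continuous_apply n).comp ((continuous_apply γ).comp continuous_snd))
  | mul a b iha ihb => exact iha.mul ihb

/-- the map `Φ` -/
noncomputable def Phi (d : DD) : Gam → ℝ := fun γ => phi (d γ)

theorem continuous_Phi : Continuous Phi :=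
  continuous_pi fun γ => continuous_phi.comp (continuous_apply γ)

/-- the closed convex set defined by all inequalities valid on `(ℕ → A) × D` -/
def Kof (D : Set DD) : Set (Gam → ℝ) :=
  {x | ∀ (a : Gam →₀ ℝ) (b : ℝ), (∀ s : ℕ → A, ∀ d ∈ D, (a.sum fun γ c => c * gg γ s d) ≤ b) →
    (a.sum fun γ c => c * x γ) ≤ b}

theorem Kof_mono {D D' : Set DD} (h : D ⊆ D') : Kof D ⊆ Kof D' :=
  fun _ hx a b hab => hx a b fun s d hd => hab s d (h hd)

theorem isClosed_Kof (D : Set DD) : IsClosed (Kof D) := by
  have : Kof D = ⋂ (a : Gam →₀ ℝ) (b : ℝ)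
      (_ : ∀ s : ℕ → A, ∀ d ∈ D, (a.sum fun γ c => c * gg γ s d) ≤ b),
      {x : Gam → ℝ | (a.sum fun γ c => c * x γ) ≤ b} := by
    ext x
    simp only [Kof, mem_ofPred_eq, mem_iInter]
  rw [this]
  refine isClosed_iInter fun a => isClosed_iInter fun b => isClosed_iInter fun _ => ?_
  refine isClosed_le ?_ continuous_const
  simp only [Finsupp.sum]
  exact continuous_finsetSum _ fun γ _ => continuous_const.mul (continuous_apply γ)

theorem convex_Kof (D : Set DD) : Convex ℝ (Kof D) := by
  intro x hx y hy p q hp hq hpq a b hab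
  have h1 := hx a b hab
  have h2 := hy a b hab
  have : (a.sum fun γ c => c * (p • x + q • y) γ) =
      p * (a.sum fun γ c => c * x γ) + q * (a.sum fun γ c => c * y γ) := by
    simp only [Finsupp.sum, Finset.mul_sum, ← Finset.sum_add_distrib]
    refine Finset.sum_congr rfl fun γ _ => ?_
    simp only [Pi.add_apply, Pi.smul_apply, smul_eq_mul]
    ring
  rw [this]
  calc p * (a.sum fun γ c => c * x γ) + q * (a.sum fun γ c => c * y γ) ≤ p * b + q * b := by gcongr
    _ = b := by rw [← add_mul, hpq, one_mul]

theorem gg_mem_Kof {D : Set DD} {d : DD} (hd : d ∈ D) (s : ℕ → A) :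
    (fun γ => gg γ s d) ∈ Kof D := fun _ _ hab => hab s d hd

theorem Kof_nonneg {D : Set DD} {x : Gam → ℝ} (hx : x ∈ Kof D) (γ : Gam) : 0 ≤ x γ := by
  have := hx (Finsupp.single γ (-1)) 0 (fun s d _ => by
    rw [Finsupp.sum_single_index (by simp)]
    have := gg_nonneg γ s d
    linarith)
  rw [Finsupp.sum_single_index (by simp)] at this
  linarith

theorem Kof_le_one {D : Set DD} {x : Gam → ℝ} (hx : x ∈ Kof D) (γ : Gam) : x γ ≤ 1 := by
  have := hx (Finsupp.single γ 1) 1 (fun s d _ => by
    rw [Finsupp.sum_single_index (by simp), one_mul]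
    exact gg_le_one γ s d)
  rw [Finsupp.sum_single_index (by simp)] at this
  linarith

theorem isCompact_Kof (D : Set DD) : IsCompact (Kof D) := by
  refine IsCompact.of_isClosed_subset (isCompact_univ_pi fun _ : Gam => isCompact_Icc (a := (0:ℝ)) (b := 1))
    (isClosed_Kof D) fun x hx γ _ => ⟨Kof_nonneg hx γ, Kof_le_one hx γ⟩

/-- The monotone operator whose greatest fixed point is used. -/
noncomputable def opF : Set DD →o Set DD where
  toFun S := {d | Phi d ∈ Kof S}
  monotone' := fun _ _ h _ hd => Kof_mono h hd

/-- the set of digit systems -/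
noncomputable def DSet : Set DD := OrderHom.gfp opF

theorem DSet_eq : {d | Phi d ∈ Kof DSet} = DSet := opF.map_gfp

theorem mem_DSet {d : DD} : d ∈ DSet ↔ Phi d ∈ Kof DSet := by
  conv_lhs => rw [← DSet_eq]
  rfl

theorem isClosed_DSet : IsClosed DSet := by
  rw [← DSet_eq]
  exact (isClosed_Kof _).preimage continuous_Phi

/-- base point of `ℕ → A` -/
def s0 : ℕ → A := fun _ => a0

/-- zero digit system -/
def d0 : DD := fun _ _ => false

theorem gg_s0_d0 (γ : Gam) : gg γ s0 d0 = 0 := by
  induction γ with
  | base k i => rfl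
  | dig γ n _ => rfl
  | mul a b iha ihb => simp [gg, iha]

theorem Phi_d0 : Phi d0 = fun _ => 0 := by
  funext γ
  exact phi_zero

theorem d0_mem : d0 ∈ DSet := by
  have : ({d0} : Set DD) ≤ DSet := by
    refine OrderHom.le_gfp opF ?_
    intro d hd
    rw [mem_singleton_iff] at hd
    subst hd
    change Phi d0 ∈ Kof {d0}
    intro a b hab
    rw [Phi_d0]
    have := hab s0 d0 rfl
    simp only [gg_s0_d0] at this
    exact this
  exact this rfl

/-- the totally disconnected compact space -/
abbrev LL : Type := (ℕ → A) × ↥DSet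

instance : CompactSpace ↥DSet := isCompact_iff_compactSpace.mp isClosed_DSet.isCompact

/-- the compact convex set -/
noncomputable def K0 : Set (Gam → ℝ) := Kof DSet

instance : CompactSpace ↥K0 := isCompact_iff_compactSpace.mp (isCompact_Kof _)

/-- the embedding `G : L → K₀` -/
noncomputable def GG : C(LL, ↥K0) where
  toFun m := ⟨fun γ => gg γ m.1 m.2.1, gg_mem_Kof m.2.2 m.1⟩
  continuous_toFun := by
    refine Continuous.subtype_mk (continuous_pi fun γ => ?_) _
    exact (continuous_gg γ).comp (continuous_fst.prodMk (continuous_subtype_val.comp continuous_snd))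

theorem GG_inj : Function.Injective GG := by
  intro m m' h
  have h' : ∀ γ, gg γ m.1 m.2.1 = gg γ m'.1 m'.2.1 := fun γ => congrFun (congrArg Subtype.val h) γ
  refine Prod.ext ?_ (Subtype.ext ?_)
  · funext k
    apply Subtype.ext
    funext i
    have := h' (.base k i)
    simp only [gg] at this
    cases h1 : (m.1 k).1 i <;> cases h2 : (m'.1 k).1 i <;> simp_all
  · funext γ n
    have := h' (.dig γ n)
    simp only [gg] at this
    cases h1 : m.2.1 γ n <;> cases h2 : m'.2.1 γ n <;> simp_all

/-- the map `Φ : L → K₀` -/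
noncomputable def PP : C(LL, ↥K0) where
  toFun m := ⟨Phi m.2.1, mem_DSet.1 m.2.2⟩
  continuous_toFun :=
    Continuous.subtype_mk (continuous_Phi.comp (continuous_subtype_val.comp continuous_snd)) _

/-- homeomorphism `L ≅ A × L` -/
noncomputable def shiftHomeo : LL ≃ₜ A × LL where
  toFun m := (m.1 0, (fun k => m.1 (k+1), m.2))
  invFun p := (fun k => Nat.casesOn k p.1 (fun n => p.2.1 n), p.2.2)
  left_inv := by
    intro m
    refine Prod.ext ?_ rfl
    funext k
    cases k <;> rfl
  right_inv := by
    rintro ⟨p, q, r⟩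
    rfl
  continuous_toFun := by fun_prop
  continuous_invFun := by
    refine Continuous.prodMk (continuous_pi fun k => ?_) (continuous_snd.comp continuous_snd)
    cases k with
    | zero => exact continuous_fst
    | succ n => exact (continuous_apply n).comp (continuous_fst.comp continuous_snd)

example : TotallyDisconnectedSpace LL := inferInstance
example : T2Space LL := inferInstance
example : CompactSpace LL := inferInstance

end Pool.Agent.Helper27.WC
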