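import Mathlib
import Pool.Agent.Helper27.WC3

set_option autoImplicit false

/-!
# Weights: `K₀` embeds affinely into `ℓ²(Γ)` with its weak topology.
-/

namespace Pool.Agent.Helper27.WC

open Filter Topology MeasureTheory Set

noncomputable def ww : Gam → ℝ
  | .base k _ => (1/3) * (1/2)^(k+1)
  | .dig γ n => (1/3) * (1/2)^(n+1) * cc n * ww γ
  | .mul a b => (1/3) * (ww a * ww b)

theorem ww_pos (γ : Gam) : 0 < ww γ := by
  induction γ with
  | base k i => simp only [ww]; positivity
  | dig γ n ih => simp only [ww]; have := cc_pos n; positivity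
  | mul a b iha ihb => simp only [ww]; positivity

open Classical in
/-- exhausting finite sets -/
noncomputable def EE (I : Finset I0) (N : ℕ) : ℕ → Finset Gam
  | 0 => ∅
  | R+1 => ((Finset.range N ×ˢ I).image fun p => Gam.base p.1 p.2) ∪
      (((EE I N R) ×ˢ Finset.range N).image fun p => Gam.dig p.1 p.2) ∪
      (((EE I N R) ×ˢ (EE I N R)).image fun p => Gam.mul p.1 p.2)

theorem EE_mono {I I' : Finset I0} {N N' : ℕ} (hI : I ⊆ I') (hN : N ≤ N') (R : ℕ) :
    EE I N R ⊆ EE I' N' R := by
  induction R with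
  | zero => exact Finset.Subset.refl _
  | succ R ih =>
    classical
    simp only [EE]
    refine Finset.union_subset_union (Finset.union_subset_union ?_ ?_) ?_
    · exact Finset.image_subset_image
        (Finset.product_subset_product (Finset.range_subset_range.2 hN) hI)
    · exact Finset.image_subset_image
        (Finset.product_subset_product ih (Finset.range_subset_range.2 hN))
    · exact Finset.image_subset_image (Finset.product_subset_product ih ih)

theorem EE_step (I : Finset I0) (N R : ℕ) : EE I N R ⊆ EE I N (R+1) := by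
  induction R with
  | zero => exact Finset.empty_subset _
  | succ R ih =>
    classical
    rw [EE, EE.eq_def I N (R+1+1)]
    refine Finset.union_subset_union (Finset.union_subset_union ?_ ?_) ?_
    · exact Finset.Subset.refl _
    · exact Finset.image_subset_image (Finset.product_subset_product ih (Finset.Subset.refl _))
    · exact Finset.image_subset_image (Finset.product_subset_product ih ih)

theorem EE_mono' {I I' : Finset I0} {N N' R R' : ℕ} (hI : I ⊆ I') (hN : N ≤ N') (hR : R ≤ R') :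
    EE I N R ⊆ EE I' N' R' :=
  (EE_mono hI hN R).trans (monotone_nat_of_le_succ (f := EE I' N') (EE_step I' N') hR)

theorem mem_EE (γ : Gam) : ∃ I N R, γ ∈ EE I N R := by
  classical
  induction γ with
  | base k i =>
    refine ⟨{i}, k+1, 1, ?_⟩
    simp only [EE, Finset.mem_union, Finset.mem_image, Finset.mem_product, Finset.mem_range,
      Finset.mem_singleton]
    exact Or.inl (Or.inl ⟨(k, i), ⟨Nat.lt_succ_self k, rfl⟩, rfl⟩)
  | dig γ n ih =>
    obtain ⟨I, N, R, h⟩ := ih
    refine ⟨I, max N (n+1), R+1, ?_⟩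
    rw [EE]
    simp only [Finset.mem_union, Finset.mem_image, Finset.mem_product, Finset.mem_range]
    exact Or.inl (Or.inr ⟨(γ, n), ⟨EE_mono (Finset.Subset.refl _) (le_max_left _ _) R h,
      lt_of_lt_of_le (Nat.lt_succ_self n) (le_max_right _ _)⟩, rfl⟩)
  | mul a b iha ihb =>
    obtain ⟨I, N, R, h⟩ := iha
    obtain ⟨I', N', R', h'⟩ := ihb
    refine ⟨I ∪ I', max N N', max R R' + 1, ?_⟩
    rw [EE]
    simp only [Finset.mem_union, Finset.mem_image, Finset.mem_product, Finset.mem_range]
    exact Or.inr ⟨(a, b),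
      ⟨EE_mono' Finset.subset_union_left (le_max_left _ _) (le_max_left _ _) h,
       EE_mono' Finset.subset_union_right (le_max_right _ _) (le_max_right _ _) h'⟩, rfl⟩

theorem subset_EE (F : Finset Gam) : ∃ I N R, F ⊆ EE I N R := by
  classical
  induction F using Finset.induction_on with
  | empty => exact ⟨∅, 0, 0, Finset.empty_subset _⟩
  | insert γ F _ ih =>
    obtain ⟨I, N, R, h⟩ := ih
    obtain ⟨I', N', R', h'⟩ := mem_EE γ
    refine ⟨I ∪ I', max N N', max R R', ?_⟩
    refine Finset.insert_subset ?_ ?_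
    · exact EE_mono' Finset.subset_union_right (le_max_right _ _) (le_max_right _ _) h'
    · exact h.trans (EE_mono' Finset.subset_union_left (le_max_left _ _) (le_max_left _ _))

theorem sum_half (N : ℕ) : ∑ n ∈ Finset.range N, (1/2 : ℝ)^(n+1) ≤ 1 := by
  have : ∀ N : ℕ, ∑ n ∈ Finset.range N, (1/2 : ℝ)^(n+1) = 1 - (1/2)^N := by
    intro N
    induction N with
    | zero => simp
    | succ N ih => rw [Finset.sum_range_succ, ih]; ring
  rw [this]
  have : (0:ℝ) < (1/2)^N := by positivity
  linarith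

theorem sum_b2r_le (I : Finset I0) (a : A) : ∑ i ∈ I, b2r (a.1 i) ≤ 1 := by
  classical
  by_cases h : ∃ i ∈ I, a.1 i = true
  · obtain ⟨i, hi, hai⟩ := h
    rw [Finset.sum_eq_single i]
    · exact b2r_le_one _
    · intro j _ hj
      have : a.1 j = false := by
        by_contra hc
        simp only [Bool.not_eq_false] at hc
        exact hj (a.2 _ _ hc hai)
      rw [this, b2r_false]
    · intro hi'; exact absurd hi hi'
  · push Not at h
    rw [Finset.sum_eq_zero]
    · norm_num
    · intro i hi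
      have := h i hi
      simp only [ne_eq, Bool.not_eq_true] at this
      rw [this, b2r_false]

theorem Kof_sum {D : Set DD} {x : Gam → ℝ} (hx : x ∈ Kof D) (F : Finset Gam) (c : Gam → ℝ) (b : ℝ)
    (h : ∀ s : ℕ → A, ∀ d ∈ D, ∑ γ ∈ F, c γ * gg γ s d ≤ b) : ∑ γ ∈ F, c γ * x γ ≤ b := by
  classical
  let a : Gam →₀ ℝ := Finsupp.onFinset F (fun γ => if γ ∈ F then c γ else 0) (by
    intro γ hγ
    by_contra hc
    simp [hc] at hγ)
  have key : ∀ y : Gam → ℝ, (a.sum fun γ c => c * y γ) = ∑ γ ∈ F, c γ * y γ := by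
    intro y
    rw [Finsupp.sum_of_support_subset a Finsupp.support_onFinset_subset _ (by simp)]
    refine Finset.sum_congr rfl fun γ hγ => ?_
    simp [a, hγ]
  rw [← key]
  refine hx a b fun s d hd => ?_
  rw [key]
  exact h s d hd

theorem sum_EE (I : Finset I0) (N R : ℕ) : ∀ x ∈ K0, ∑ γ ∈ EE I N R, ww γ * x γ ≤ 1 := by
  induction R with
  | zero => intro x _; simp [EE]
  | succ R ih =>
    classical
    intro x hx
    refine Kof_sum hx _ _ _ fun s d hd => ?_
    have hnn : ∀ γ, 0 ≤ ww γ * gg γ s d := fun γ => mul_nonneg (ww_pos γ).le (gg_nonneg _ _ _)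
    have h1 : ∑ γ ∈ ((Finset.range N ×ˢ I).image fun p => Gam.base p.1 p.2), ww γ * gg γ s d
        ≤ 1/3 := by
      rw [Finset.sum_image (by
        rintro ⟨k, i⟩ _ ⟨k', i'⟩ _ h
        simpa using h)]
      rw [Finset.sum_product]
      calc ∑ k ∈ Finset.range N, ∑ i ∈ I, ww (Gam.base k i) * gg (Gam.base k i) s d
          = ∑ k ∈ Finset.range N, (1/3) * (1/2)^(k+1) * ∑ i ∈ I, b2r ((s k).1 i) := by
            refine Finset.sum_congr rfl fun k _ => ?_
            rw [Finset.mul_sum]
            rfl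
        _ ≤ ∑ k ∈ Finset.range N, (1/3) * (1/2)^(k+1) * 1 := by
            refine Finset.sum_le_sum fun k _ => ?_
            have := sum_b2r_le I (s k)
            gcongr
        _ = (1/3) * ∑ k ∈ Finset.range N, (1/2)^(k+1) := by
            rw [Finset.mul_sum]
            refine Finset.sum_congr rfl fun k _ => ?_
            ring
        _ ≤ (1/3) * 1 := by
            have := sum_half N
            gcongr
        _ = 1/3 := by ring
    have h2 : ∑ γ ∈ (((EE I N R) ×ˢ Finset.range N).image fun p => Gam.dig p.1 p.2),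
        ww γ * gg γ s d ≤ 1/3 := by
      rw [Finset.sum_image (by
        rintro ⟨k, i⟩ _ ⟨k', i'⟩ _ h
        simpa using h)]
      rw [Finset.sum_product_right]
      calc ∑ n ∈ Finset.range N, ∑ γ ∈ EE I N R, ww (Gam.dig γ n) * gg (Gam.dig γ n) s d
          = ∑ n ∈ Finset.range N, (1/3) * (1/2)^(n+1) *
              ∑ γ ∈ EE I N R, ww γ * (cc n * b2r (d γ n)) := by
            refine Finset.sum_congr rfl fun k _ => ?_
            rw [Finset.mul_sum]
            refine Finset.sum_congr rfl fun i _ => ?_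
            simp only [ww, gg]
            ring
        _ ≤ ∑ n ∈ Finset.range N, (1/3) * (1/2)^(n+1) * 1 := by
            refine Finset.sum_le_sum fun n _ => ?_
            have h3 : ∑ γ ∈ EE I N R, ww γ * (cc n * b2r (d γ n)) ≤ 1 := by
              refine le_trans (Finset.sum_le_sum fun γ _ => ?_) (ih (Phi d) (mem_DSet.1 hd))
              have := cc_mul_le_phi (d γ) n
              have := ww_pos γ
              unfold Phi
              gcongr
            gcongr
        _ = (1/3) * ∑ k ∈ Finset.range N, (1/2)^(k+1) := by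
            rw [Finset.mul_sum]
            refine Finset.sum_congr rfl fun k _ => ?_
            ring
        _ ≤ (1/3) * 1 := by
            have := sum_half N
            gcongr
        _ = 1/3 := by ring
    have h3 : ∑ γ ∈ (((EE I N R) ×ˢ (EE I N R)).image fun p => Gam.mul p.1 p.2),
        ww γ * gg γ s d ≤ 1/3 := by
      rw [Finset.sum_image (by
        rintro ⟨k, i⟩ _ ⟨k', i'⟩ _ h
        simpa using h)]
      rw [Finset.sum_product]
      have e : ∑ a ∈ EE I N R, ∑ b ∈ EE I N R, ww (Gam.mul a b) * gg (Gam.mul a b) s d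
          = (1/3) * ((∑ a ∈ EE I N R, ww a * gg a s d) * (∑ b ∈ EE I N R, ww b * gg b s d)) := by
        rw [Finset.sum_mul_sum, Finset.mul_sum]
        refine Finset.sum_congr rfl fun a _ => ?_
        rw [Finset.mul_sum]
        refine Finset.sum_congr rfl fun b _ => ?_
        simp only [ww, gg]
        ring
      simp only
      rw [e]
      have h4 := ih (fun γ => gg γ s d) (gg_mem_Kof hd s)
      have h5 : 0 ≤ ∑ γ ∈ EE I N R, ww γ * gg γ s d := Finset.sum_nonneg fun γ _ => hnn γ
      nlinarith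
    rw [EE]
    refine le_trans (sum_union_le _ _ hnn) ?_
    refine le_trans (add_le_add_left (sum_union_le _ _ hnn) _) ?_
    linarith
where
  sum_union_le {f : Gam → ℝ} [DecidableEq Gam] (F F' : Finset Gam) (h : ∀ γ, 0 ≤ f γ) :
      ∑ γ ∈ F ∪ F', f γ ≤ ∑ γ ∈ F, f γ + ∑ γ ∈ F', f γ := by
    rw [← Finset.sum_union_inter]
    have : 0 ≤ ∑ γ ∈ F ∩ F', f γ := Finset.sum_nonneg fun γ _ => h γ
    linarith

theorem sum_ww (F : Finset Gam) {x : Gam → ℝ} (hx : x ∈ K0) : ∑ γ ∈ F, ww γ * x γ ≤ 1 := by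
  obtain ⟨I, N, R, h⟩ := subset_EE F
  refine le_trans (Finset.sum_le_sum_of_subset_of_nonneg h fun γ _ _ => ?_) (sum_EE I N R x hx)
  exact mul_nonneg (ww_pos γ).le (Kof_nonneg hx γ)

theorem sum_sq (F : Finset Gam) {x : Gam → ℝ} (hx : x ∈ K0) : ∑ γ ∈ F, (ww γ * x γ)^2 ≤ 1 := by
  refine le_trans (Finset.sum_le_sum fun γ _ => ?_) (sum_ww F hx)
  have h0 : 0 ≤ ww γ * x γ := mul_nonneg (ww_pos γ).le (Kof_nonneg hx γ)
  have h1 : ww γ * x γ ≤ 1 := by simpa using sum_ww {γ} hx
  nlinarith

/-- the Hilbert space -/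
abbrev HH : Type := lp (fun _ : Gam => ℝ) 2

theorem memJ {x : Gam → ℝ} (hx : x ∈ K0) : Memℓp (fun γ => ww γ * x γ) 2 := by
  refine memℓp_gen ?_
  have : (fun γ => ‖ww γ * x γ‖ ^ (2 : ENNReal).toReal) = fun γ => (ww γ * x γ)^2 := by
    funext γ
    rw [Real.norm_eq_abs, ENNReal.toReal_ofNat, Real.rpow_ofNat, sq_abs]
  rw [this]
  exact summable_of_sum_le (fun γ => sq_nonneg _) fun F => sum_sq F hx

/-- the embedding -/
noncomputable def JJ (x : ↥K0) : HH := ⟨fun γ => ww γ * x.1 γ, memJ x.2⟩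

theorem JJ_apply (x : ↥K0) (γ : Gam) : (JJ x : Gam → ℝ) γ = ww γ * x.1 γ := rfl

theorem norm_JJ (x : ↥K0) : ‖JJ x‖ ≤ 1 := by
  refine lp.norm_le_of_forall_sum_le (p := 2) (by norm_num) zero_le_one fun F => ?_
  have : ∑ γ ∈ F, ‖(JJ x : Gam → ℝ) γ‖ ^ (2 : ENNReal).toReal = ∑ γ ∈ F, (ww γ * x.1 γ)^2 := by
    refine Finset.sum_congr rfl fun γ _ => ?_
    rw [JJ_apply, Real.norm_eq_abs, ENNReal.toReal_ofNat, Real.rpow_ofNat, sq_abs]
  rw [this]
  simpa using sum_sq F x.2

theorem continuous_JJ : Continuous fun x : ↥K0 => toWeakSpace ℝ HH (JJ x) := by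
  refine WeakBilin.continuous_of_continuous_eval _ fun f => ?_
  change Continuous fun x : ↥K0 => f (JJ x)
  obtain ⟨y, rfl⟩ : ∃ y : HH, f = InnerProductSpace.toDual ℝ HH y :=
    ⟨(InnerProductSpace.toDual ℝ HH).symm f, by simp⟩
  classical
  have hs : Tendsto (fun F : Finset Gam => ∑ γ ∈ F, lp.single (E := fun _ : Gam => ℝ) 2 γ (y γ))
      atTop (𝓝 y) := by
    have := lp.hasSum_single (p := 2) (E := fun _ : Gam => ℝ) (by norm_num) y
    rwa [HasSum, SummationFilter.unconditional_filter] at this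
  refine continuous_of_uniform_approx_of_continuous fun u hu => ?_
  obtain ⟨ε, hε, hεu⟩ := Metric.mem_uniformity_dist.1 hu
  have h1 := Metric.tendsto_atTop.1 hs ε hε
  obtain ⟨F, hF⟩ := h1
  have hF' := hF F le_rfl
  refine ⟨fun x => ∑ γ ∈ F, y γ * (ww γ * x.1 γ), ?_, fun x => hεu ?_⟩
  · exact continuous_finsetSum _ fun γ _ => continuous_const.mul
      (continuous_const.mul ((continuous_apply γ).comp continuous_subtype_val))
  · have e : ∑ γ ∈ F, y γ * (ww γ * x.1 γ) =
        inner ℝ (∑ γ ∈ F, lp.single (E := fun _ : Gam => ℝ) 2 γ (y γ)) (JJ x) := by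
      rw [sum_inner]
      refine Finset.sum_congr rfl fun γ _ => ?_
      rw [lp.inner_single_left]
      simp [JJ_apply, mul_comm]
    change dist _ (∑ γ ∈ F, y γ * (ww γ * x.1 γ)) < ε
    rw [e, InnerProductSpace.toDual_apply_apply, Real.dist_eq, ← inner_sub_left]
    refine lt_of_le_of_lt (abs_real_inner_le_norm _ _) ?_
    calc _ ≤ ‖y - ∑ γ ∈ F, lp.single (E := fun _ : Gam => ℝ) 2 γ (y γ)‖ * 1 := by
          have := norm_JJ x
          gcongr
      _ < ε := by
          rw [mul_one, ← dist_eq_norm, dist_comm]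
          exact hF'

/-- The weakly compact convex set -/
noncomputable def KK : Set (WeakSpace ℝ HH) := Set.range fun x : ↥K0 => toWeakSpace ℝ HH (JJ x)

theorem isCompact_KK : IsCompact KK := isCompact_range continuous_JJ

theorem JJ_inj : Function.Injective JJ := by
  intro x y h
  apply Subtype.ext
  funext γ
  have := congrArg (fun v : HH => (v : Gam → ℝ) γ) h
  simp only [JJ_apply] at this
  exact mul_left_cancel₀ (ww_pos γ).ne' this

theorem convex_KK : Convex ℝ KK := by
  rintro _ ⟨x, rfl⟩ _ ⟨y, rfl⟩ p q hp hq hpq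
  refine ⟨⟨p • x.1 + q • y.1, convex_Kof _ x.2 y.2 hp hq hpq⟩, ?_⟩
  simp only
  rw [← map_smul, ← map_smul, ← map_add]
  congr 1
  ext γ
  simp only [JJ_apply, lp.coeFn_add, lp.coeFn_smul, Pi.add_apply, Pi.smul_apply, smul_eq_mul]
  ring

theorem KK_t2 : T2Space ↥KK := by
  have hcoord : ∀ γ : Gam, Continuous fun v : ↥KK =>
      ((toWeakSpace ℝ HH).symm v.1 : Gam → ℝ) γ := by
    intro γ
    have h1 : Continuous fun v : WeakSpace ℝ HH =>
        (lp.evalCLM ℝ (fun _ : Gam => ℝ) 2 γ) ((toWeakSpace ℝ HH).symm v) :=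
      WeakBilin.eval_continuous (topDualPairing ℝ HH).flip (lp.evalCLM ℝ (fun _ : Gam => ℝ) 2 γ)
    exact h1.comp continuous_subtype_val
  refine T2Space.of_injective_continuous (f := fun (v : ↥KK) (γ : Gam) =>
    ((toWeakSpace ℝ HH).symm v.1 : Gam → ℝ) γ) ?_ (continuous_pi hcoord)
  intro v w h
  apply Subtype.ext
  apply (toWeakSpace ℝ HH).symm.injective
  apply lp.ext
  exact h

theorem homeo_KK : Nonempty (↥K0 ≃ₜ ↥KK) := by
  have := KK_t2
  let e : ↥K0 ≃ ↥KK := Equiv.ofBijective
    (fun x => ⟨toWeakSpace ℝ HH (JJ x), x, rfl⟩) ⟨by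
      intro x y h
      exact JJ_inj ((toWeakSpace ℝ HH).injective (congrArg Subtype.val h)), by
      rintro ⟨_, x, rfl⟩
      exact ⟨x, rfl⟩⟩
  exact ⟨Continuous.homeoOfEquivCompactToT2 (f := e) (continuous_JJ.subtype_mk _)⟩

end Pool.Agent.Helper27.WC
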