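import Mathlib
import Pool.Agent.Helper27.WC3

set_option autoImplicit false

/-!
# The extension operator `C(L) → C(K₀)`
-/

namespace Pool.Agent.Helper27.WC

open Filter Topology Set

/-- coordinates as continuous functions on `K₀` -/
noncomputable def coord (γ : Gam) : C(↥K0, ℝ) :=
  ⟨fun x => x.1 γ, (continuous_apply γ).comp continuous_subtype_val⟩

theorem coord_apply (γ : Gam) (x : ↥K0) : coord γ x = x.1 γ := rfl

noncomputable def VV : Submodule ℝ C(↥K0, ℝ) := Submodule.span ℝ (insert 1 (range coord))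

/-- composition with `G` -/
noncomputable def ss : C(↥K0, ℝ) →L[ℝ] C(LL, ℝ) := ContinuousMap.compCLM ℝ ℝ GG

theorem ss_apply (h : C(↥K0, ℝ)) (m : LL) : ss h m = h (GG m) := rfl

theorem VV_le {h : C(↥K0, ℝ)} (hh : h ∈ VV) {M : ℝ} (hM : ∀ m, ss h m ≤ M) (x : ↥K0) :
    h x ≤ M := by
  obtain ⟨c, z, hz, rfl⟩ := Submodule.mem_span_insert.1 hh
  obtain ⟨a, rfl⟩ := Finsupp.mem_span_range_iff_exists_finsupp.1 hz
  have hval : ∀ y : ↥K0, (c • (1 : C(↥K0, ℝ)) + a.sum fun i r => r • coord i) y =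
      c + a.sum fun γ r => r * y.1 γ := by
    intro y
    simp [Finsupp.sum, coord_apply, ContinuousMap.coe_sum, Finset.sum_apply]
  have h1 := x.2 a (M - c) (fun s d hd => by
    have := hM (s, ⟨d, hd⟩)
    rw [ss_apply, hval] at this
    have e : (a.sum fun γ r => r * (GG (s, ⟨d, hd⟩)).1 γ) = a.sum fun γ r => r * gg γ s d := rfl
    rw [e] at this
    linarith)
  rw [hval]
  linarith

theorem norm_ss_VV {h : C(↥K0, ℝ)} (hh : h ∈ VV) : ‖ss h‖ = ‖h‖ := by
  refine le_antisymm ?_ ?_
  · refine (ContinuousMap.norm_le _ (norm_nonneg _)).2 fun m => ?_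
    exact ContinuousMap.norm_coe_le_norm h (GG m)
  · refine (ContinuousMap.norm_le _ (norm_nonneg _)).2 fun x => ?_
    rw [Real.norm_eq_abs, abs_le]
    constructor
    · have := VV_le (VV.neg_mem hh) (M := ‖ss h‖) (fun m => by
        rw [map_neg, ContinuousMap.neg_apply]
        have := ContinuousMap.norm_coe_le_norm (ss h) m
        rw [Real.norm_eq_abs, abs_le] at this
        linarith) x
      rw [ContinuousMap.neg_apply] at this
      linarith
    · exact VV_le hh (fun m => by
        have := ContinuousMap.norm_coe_le_norm (ss h) m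
        rw [Real.norm_eq_abs, abs_le] at this
        exact this.2) x

/-- closure of the affine functions -/
noncomputable def AA : Submodule ℝ C(↥K0, ℝ) := VV.topologicalClosure

theorem norm_ss {h : C(↥K0, ℝ)} (hh : h ∈ AA) : ‖ss h‖ = ‖h‖ := by
  have hcl : IsClosed {h : C(↥K0, ℝ) | ‖ss h‖ = ‖h‖} :=
    isClosed_eq (ss.continuous.norm) continuous_norm
  exact (closure_minimal (fun h (hh : h ∈ VV) => norm_ss_VV hh) hcl) hh

noncomputable def sA : ↥AA →ₗᵢ[ℝ] C(LL, ℝ) where
  toLinearMap := (ss : C(↥K0, ℝ) →ₗ[ℝ] C(LL, ℝ)).comp AA.subtype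
  norm_map' := fun h => norm_ss h.2

theorem sA_apply (h : ↥AA) : sA h = ss h.1 := rfl

/-- span of the coordinate functions on `L` -/
noncomputable def VL : Submodule ℝ C(LL, ℝ) := Submodule.span ℝ (insert 1 (range fun γ => ss (coord γ)))

theorem ss_coord_mul (a b : Gam) : ss (coord a) * ss (coord b) = ss (coord (.mul a b)) := rfl

theorem VL_mul {f g : C(LL, ℝ)} (hf : f ∈ VL) (hg : g ∈ VL) : f * g ∈ VL := by
  have h1 : f * g ∈ VL * VL := Submodule.mul_mem_mul hf hg
  have h2 : VL * VL ≤ VL := by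
    unfold VL
    rw [Submodule.span_mul_span]
    refine Submodule.span_le.2 ?_
    rintro _ ⟨p, hp, q, hq, rfl⟩
    simp only [SetLike.mem_coe]
    rcases hp with rfl | ⟨a, rfl⟩
    · rw [one_mul]
      exact Submodule.subset_span hq
    · rcases hq with rfl | ⟨b, rfl⟩
      · rw [mul_one]
        exact Submodule.subset_span (Or.inr ⟨a, rfl⟩)
      · simp only [ss_coord_mul]
        exact Submodule.subset_span (Or.inr ⟨_, rfl⟩)
  exact h2 h1

/-- the subalgebra -/
noncomputable def BL : Subalgebra ℝ C(LL, ℝ) :=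
  VL.toSubalgebra (Submodule.subset_span (Or.inl rfl)) fun _ _ => VL_mul

theorem mem_BL {f : C(LL, ℝ)} : f ∈ BL ↔ f ∈ VL := Iff.rfl

theorem BL_dense : BL.topologicalClosure = ⊤ := by
  refine ContinuousMap.subalgebra_topologicalClosure_eq_top_of_separatesPoints BL ?_
  intro m m' hmm
  by_contra hc
  apply hmm
  apply GG_inj
  apply Subtype.ext
  funext γ
  by_contra hne
  exact hc ⟨_, ⟨ss (coord γ), mem_BL.2 (Submodule.subset_span (Or.inr ⟨γ, rfl⟩)), rfl⟩, hne⟩

theorem sA_surj : Function.Surjective sA := by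
  have hcomp : CompleteSpace ↥AA :=
    (Submodule.isClosed_topologicalClosure VV).completeSpace_coe
  have hcl : IsClosed (range sA) := sA.isometry.isClosedEmbedding.isClosed_range
  have hsub : (VL : Set C(LL, ℝ)) ⊆ range sA := by
    have : VL ≤ LinearMap.range sA.toLinearMap := by
      refine Submodule.span_le.2 ?_
      rintro _ (rfl | ⟨γ, rfl⟩)
      · exact ⟨⟨1, VV.le_topologicalClosure (Submodule.subset_span (Or.inl rfl))⟩, rfl⟩
      · exact ⟨⟨coord γ, VV.le_topologicalClosure (Submodule.subset_span (Or.inr ⟨γ, rfl⟩))⟩, rfl⟩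
    exact this
  intro f
  have hf : f ∈ closure (VL : Set C(LL, ℝ)) := by
    have : f ∈ BL.topologicalClosure := by rw [BL_dense]; exact Algebra.mem_top
    exact this
  exact closure_minimal hsub hcl hf

theorem exists_extension : ∃ j : C(LL, ℝ) →L[ℝ] C(↥K0, ℝ), Function.RightInverse j ss := by
  let e : ↥AA ≃ₗᵢ[ℝ] C(LL, ℝ) := LinearIsometryEquiv.ofSurjective sA sA_surj
  refine ⟨AA.subtypeL.comp (e.symm.toContinuousLinearEquiv : C(LL, ℝ) →L[ℝ] ↥AA), fun f => ?_⟩
  exact e.apply_symm_apply f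

end Pool.Agent.Helper27.WC
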