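import Mathlib
import Pool.Agent.Helper27.WC5

set_option autoImplicit false

/-!
# The averaging operator `C(L) → C(K₀)`
-/

namespace Pool.Agent.Helper27.WC

open Filter Topology MeasureTheory Set

/-- digits of all coordinates, with random parameter `θ` -/
noncomputable def Psi (x : Gam → ℝ) (θ : ℝ) : DD := fun γ n => dgt θ (x γ) n

theorem Phi_Psi {x : Gam → ℝ} (hx : x ∈ K0) {θ : ℝ} (hθ : θ ∈ Ioo (1/3 : ℝ) (2/3)) :
    Phi (Psi x θ) = x := by
  funext γ
  exact phi_dgt hθ.1 hθ.2 ⟨Kof_nonneg hx γ, Kof_le_one hx γ⟩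

theorem Psi_mem {x : Gam → ℝ} (hx : x ∈ K0) {θ : ℝ} (hθ : θ ∈ Ioo (1/3 : ℝ) (2/3)) :
    Psi x θ ∈ DSet := by
  rw [mem_DSet, Phi_Psi hx hθ]
  exact hx

open Classical in
/-- the random lift `K₀ → L` -/
noncomputable def PsiL (x : ↥K0) (θ : ℝ) : LL :=
  (s0, if h : θ ∈ Ioo (1/3 : ℝ) (2/3) then ⟨Psi x.1 θ, Psi_mem x.2 h⟩ else ⟨d0, d0_mem⟩)

theorem PP_PsiL (x : ↥K0) {θ : ℝ} (hθ : θ ∈ Ioo (1/3 : ℝ) (2/3)) : PP (PsiL x θ) = x := by
  apply Subtype.ext
  change Phi (PsiL x θ).2.1 = x.1
  have : (PsiL x θ).2.1 = Psi x.1 θ := by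
    simp only [PsiL, dif_pos hθ]
  rw [this, Phi_Psi x.2 hθ]

theorem ss_coord_PsiL (γ : Gam) (x : ↥K0) {θ : ℝ} (hθ : θ ∈ Ioo (1/3 : ℝ) (2/3)) :
    ss (coord γ) (PsiL x θ) = gg γ s0 (Psi x.1 θ) := by
  change gg γ (PsiL x θ).1 (PsiL x θ).2.1 = _
  have h1 : (PsiL x θ).2.1 = Psi x.1 θ := by
    simp only [PsiL, dif_pos hθ]
  have h2 : (PsiL x θ).1 = s0 := rfl
  rw [h1, h2]

theorem ae_mem : ∀ᵐ θ ∂mu, θ ∈ Ioo (1/3 : ℝ) (2/3) := ae_restrict_mem measurableSet_Ioo

theorem measurable_gg (γ : Gam) (x : Gam → ℝ) : Measurable fun θ => gg γ s0 (Psi x θ) := by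
  induction γ with
  | base k i => exact measurable_const
  | dig γ n _ => exact measurable_dgt (x γ) n
  | mul a b iha ihb => exact iha.mul ihb

theorem meas_coord (γ : Gam) (x : ↥K0) :
    AEStronglyMeasurable (fun θ => ss (coord γ) (PsiL x θ)) mu := by
  refine (measurable_gg γ x.1).aestronglyMeasurable.congr ?_
  filter_upwards [ae_mem] with θ hθ
  rw [ss_coord_PsiL γ x hθ]

theorem meas_VL {f : C(LL, ℝ)} (hf : f ∈ VL) (x : ↥K0) :
    AEStronglyMeasurable (fun θ => f (PsiL x θ)) mu := by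
  unfold VL at hf
  induction hf using Submodule.span_induction with
  | mem f hf =>
    rcases hf with rfl | ⟨γ, rfl⟩
    · exact aestronglyMeasurable_const
    · exact meas_coord γ x
  | zero => exact aestronglyMeasurable_const
  | add f g _ _ hf hg => exact hf.add hg
  | smul c f _ hf => exact hf.const_smul c

theorem VL_dense (f : C(LL, ℝ)) : f ∈ closure (VL : Set C(LL, ℝ)) := by
  have : f ∈ BL.topologicalClosure := by rw [BL_dense]; exact Algebra.mem_top
  exact this

theorem meas_all (f : C(LL, ℝ)) (x : ↥K0) :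
    AEStronglyMeasurable (fun θ => f (PsiL x θ)) mu := by
  obtain ⟨F, hF, hlim⟩ := mem_closure_iff_seq_limit.1 (VL_dense f)
  refine aestronglyMeasurable_of_tendsto_ae atTop (f := fun n θ => F n (PsiL x θ))
    (fun n => meas_VL (hF n) x) ?_
  refine Eventually.of_forall fun θ => ?_
  exact ((ContinuousMap.evalCLM ℝ (PsiL x θ)).continuous.tendsto f).comp hlim

theorem integrable_all (f : C(LL, ℝ)) (x : ↥K0) : Integrable (fun θ => f (PsiL x θ)) mu := by
  refine Integrable.of_bound (meas_all f x) ‖f‖ (Eventually.of_forall fun θ => ?_)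
  exact ContinuousMap.norm_coe_le_norm f _

/-- the integral -/
noncomputable def RR (f : C(LL, ℝ)) (x : ↥K0) : ℝ := ∫ θ, f (PsiL x θ) ∂mu

theorem RR_sub (f g : C(LL, ℝ)) (x : ↥K0) : RR f x - RR g x = RR (f - g) x := by
  unfold RR
  rw [← integral_sub (integrable_all f x) (integrable_all g x)]
  rfl

theorem RR_bound (f : C(LL, ℝ)) (x : ↥K0) : |RR f x| ≤ ‖f‖ * (1/3) := by
  unfold RR
  rw [← Real.norm_eq_abs]
  have := norm_integral_le_of_norm_le_const (μ := mu) (f := fun θ => f (PsiL x θ)) (C := ‖f‖)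
    (Eventually.of_forall fun θ => ContinuousMap.norm_coe_le_norm f _)
  rw [mu_real_univ] at this
  exact this

theorem integrable_gg (γ : Gam) (x : Gam → ℝ) : Integrable (fun θ => gg γ s0 (Psi x θ)) mu := by
  refine Integrable.of_bound (measurable_gg γ x).aestronglyMeasurable 1
    (Eventually.of_forall fun θ => ?_)
  rw [Real.norm_eq_abs, abs_of_nonneg (gg_nonneg _ _ _)]
  exact gg_le_one _ _ _

theorem tendsto_gg (γ : Gam) (x : Gam → ℝ) :
    Tendsto (fun y : Gam → ℝ => ∫ θ, |gg γ s0 (Psi x θ) - gg γ s0 (Psi y θ)| ∂mu)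
      (𝓝 x) (𝓝 0) := by
  induction γ with
  | base k i => simp [gg]
  | dig γ n _ =>
    exact (tendsto_dgt (x γ) n).comp ((continuous_apply γ).tendsto x)
  | mul a b iha ihb =>
    have h0 := iha.add ihb
    rw [add_zero] at h0
    refine squeeze_zero (fun y => integral_nonneg fun θ => abs_nonneg _) (fun y => ?_) h0
    have ia := ((integrable_gg a x).sub (integrable_gg a y)).abs
    have ib := ((integrable_gg b x).sub (integrable_gg b y)).abs
    have iab := ((integrable_gg (.mul a b) x).sub (integrable_gg (.mul a b) y)).abs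
    have e := integral_add ia ib
    simp only [Pi.sub_apply] at e ia ib iab
    rw [← e]
    refine integral_mono iab (ia.add ib) fun θ => ?_
    simp only [gg]
    have a0 := gg_nonneg a s0 (Psi x θ)
    have a1 := gg_le_one a s0 (Psi x θ)
    have b0 := gg_nonneg b s0 (Psi y θ)
    have b1 := gg_le_one b s0 (Psi y θ)
    calc |gg a s0 (Psi x θ) * gg b s0 (Psi x θ) - gg a s0 (Psi y θ) * gg b s0 (Psi y θ)|
        = |(gg a s0 (Psi x θ) - gg a s0 (Psi y θ)) * gg b s0 (Psi y θ)
            + gg a s0 (Psi x θ) * (gg b s0 (Psi x θ) - gg b s0 (Psi y θ))| := by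
          congr 1; ring
      _ ≤ |(gg a s0 (Psi x θ) - gg a s0 (Psi y θ)) * gg b s0 (Psi y θ)|
            + |gg a s0 (Psi x θ) * (gg b s0 (Psi x θ) - gg b s0 (Psi y θ))| := abs_add_le _ _
      _ = |gg a s0 (Psi x θ) - gg a s0 (Psi y θ)| * gg b s0 (Psi y θ)
            + gg a s0 (Psi x θ) * |gg b s0 (Psi x θ) - gg b s0 (Psi y θ)| := by
          rw [abs_mul, abs_mul, abs_of_nonneg a0, abs_of_nonneg b0]
      _ ≤ |gg a s0 (Psi x θ) - gg a s0 (Psi y θ)| * 1
            + 1 * |gg b s0 (Psi x θ) - gg b s0 (Psi y θ)| := by gcongr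
      _ = _ := by ring

theorem continuous_RR_coord (γ : Gam) : Continuous (RR (ss (coord γ))) := by
  have e : ∀ x : ↥K0, RR (ss (coord γ)) x = ∫ θ, gg γ s0 (Psi x.1 θ) ∂mu := by
    intro x
    refine integral_congr_ae ?_
    filter_upwards [ae_mem] with θ hθ
    rw [ss_coord_PsiL γ x hθ]
  rw [continuous_iff_continuousAt]
  intro x
  rw [ContinuousAt, tendsto_iff_dist_tendsto_zero]
  have h1 := (tendsto_gg γ x.1).comp (continuous_subtype_val.tendsto x)
  refine squeeze_zero (fun y => dist_nonneg) (fun y => ?_) h1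
  rw [e x, e y, dist_comm, Real.dist_eq, ← integral_sub (integrable_gg γ x.1) (integrable_gg γ y.1)]
  exact abs_integral_le_integral_abs

theorem continuous_RR_VL {f : C(LL, ℝ)} (hf : f ∈ VL) : Continuous (RR f) := by
  unfold VL at hf
  induction hf using Submodule.span_induction with
  | mem f hf =>
    rcases hf with rfl | ⟨γ, rfl⟩
    · exact continuous_const (y := ∫ _ : ℝ, (1:ℝ) ∂mu)
    · exact continuous_RR_coord γ
  | zero => exact continuous_const (y := ∫ _ : ℝ, (0:ℝ) ∂mu)
  | add f g _ _ hf hg =>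
    have : RR (f + g) = fun x => RR f x + RR g x := by
      funext x
      exact integral_add (integrable_all f x) (integrable_all g x)
    rw [this]
    exact hf.add hg
  | smul c f _ hf =>
    have : RR (c • f) = fun x => c * RR f x := by
      funext x
      exact integral_const_mul c _
    rw [this]
    exact continuous_const.mul hf

theorem continuous_RR (f : C(LL, ℝ)) : Continuous (RR f) := by
  refine continuous_of_uniform_approx_of_continuous fun u hu => ?_
  obtain ⟨ε, hε, hεu⟩ := Metric.mem_uniformity_dist.1 hu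
  obtain ⟨g, hg, hfg⟩ := Metric.mem_closure_iff.1 (VL_dense f) ε hε
  refine ⟨RR g, continuous_RR_VL hg, fun x => hεu ?_⟩
  rw [Real.dist_eq, RR_sub]
  have h1 := RR_bound (f - g) x
  rw [dist_eq_norm] at hfg
  have h2 := norm_nonneg (f - g)
  linarith

/-- the averaging operator -/
noncomputable def rr : C(LL, ℝ) →L[ℝ] C(↥K0, ℝ) :=
  LinearMap.mkContinuous
    { toFun := fun f => ⟨fun x => 3 * RR f x, continuous_const.mul (continuous_RR f)⟩
      map_add' := by
        intro f g
        ext x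
        change 3 * RR (f + g) x = 3 * RR f x + 3 * RR g x
        have : RR (f + g) x = RR f x + RR g x :=
          integral_add (integrable_all f x) (integrable_all g x)
        rw [this, mul_add]
      map_smul' := by
        intro c f
        ext x
        change 3 * RR (c • f) x = c * (3 * RR f x)
        have : RR (c • f) x = c * RR f x := integral_const_mul c _
        rw [this]
        ring } 1 (by
    intro f
    rw [one_mul]
    refine (ContinuousMap.norm_le _ (norm_nonneg _)).2 fun x => ?_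
    change ‖3 * RR f x‖ ≤ ‖f‖
    rw [Real.norm_eq_abs, abs_mul, abs_of_pos (by norm_num : (0:ℝ) < 3)]
    have := RR_bound f x
    linarith)

/-- composition with `Φ` -/
noncomputable def ii : C(↥K0, ℝ) →L[ℝ] C(LL, ℝ) := ContinuousMap.compCLM ℝ ℝ PP

theorem rr_ii : Function.RightInverse ii rr := by
  intro h
  ext x
  change 3 * RR (ii h) x = h x
  have : RR (ii h) x = ∫ θ, h x ∂mu := by
    refine integral_congr_ae ?_
    filter_upwards [ae_mem] with θ hθ
    change h (PP (PsiL x θ)) = h x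
    rw [PP_PsiL x hθ]
  rw [this, integral_const, mu_real_univ]
  simp

end Pool.Agent.Helper27.WC
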