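import Mathlib
import Pool.Agent.Helper27.WC4
import Pool.Agent.Helper27.WC6

set_option autoImplicit false

/-!
# Assembly
-/

namespace Pool.Agent.Helper27.WC

open Filter Topology Set

/-- the point of `A` with index `i` -/
noncomputable def ept (i : I0) : A := by
  classical
  exact ⟨fun j => decide (j = i), by
    intro j k h1 h2
    simp only [decide_eq_true_eq] at h1 h2
    rw [h1, h2]⟩

theorem ept_self (i : I0) : (ept i).1 i = true := by
  simp [ept]

theorem A_not_secondCountable : ¬ SecondCountableTopology A := by
  intro h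
  have hsep : TopologicalSpace.SeparableSpace A := inferInstance
  have hopen : ∀ i ∈ (univ : Set I0), IsOpen {s : A | s.1 i = true} := fun i _ =>
    (isOpen_discrete ({true} : Set Bool)).preimage
      ((continuous_apply (A := fun _ : I0 => Bool) i).comp continuous_subtype_val)
  have hne : ∀ i ∈ (univ : Set I0), ({s : A | s.1 i = true}).Nonempty := fun i _ =>
    ⟨ept i, ept_self i⟩
  have hd : (univ : Set I0).PairwiseDisjoint fun i => {s : A | s.1 i = true} := by
    intro i _ j _ hij
    refine Set.disjoint_left.2 fun s hs hs' => hij (s.2 i j hs hs')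
  have hc : (univ : Set I0).Countable := hd.countable_of_isOpen hopen hne
  have hc' : Countable I0 := countable_univ_iff.1 hc
  have : Countable ℝ := Function.Injective.countable (f := fun r : ℝ => (Sum.inr r : I0)) (by
    intro a b hab
    exact Sum.inr_injective hab)
  exact not_countable this

theorem KK_not_metrizable : ¬ TopologicalSpace.MetrizableSpace ↥KK := by
  intro h
  obtain ⟨e⟩ := homeo_KK
  have hK0 : TopologicalSpace.MetrizableSpace ↥K0 := e.isEmbedding.metrizableSpace
  have hsc : SecondCountableTopology ↥K0 := by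
    let _ := TopologicalSpace.metrizableSpaceMetric ↥K0
    infer_instance
  let f : A → ↥K0 := fun a => GG (fun _ => a, ⟨d0, d0_mem⟩)
  have hf : Continuous f := GG.continuous.comp (by fun_prop)
  have hinj : Function.Injective f := by
    intro a b hab
    have := GG_inj hab
    have := congrArg (fun m : LL => m.1 0) this
    exact this
  have hemb := (hf.isClosedEmbedding hinj).isEmbedding
  exact A_not_secondCountable hemb.secondCountableTopology

theorem main :
    ∃ (E : Type) (_ : NormedAddCommGroup E) (_ : NormedSpace ℝ E) (_ : CompleteSpace E)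
      (K : Set (WeakSpace ℝ E)),
      Convex ℝ K ∧ IsCompact K ∧ ¬ TopologicalSpace.MetrizableSpace (↥K) ∧
      ∃ (L : Type) (_ : TopologicalSpace L) (_ : CompactSpace L) (_ : T2Space L),
        TotallyDisconnectedSpace L ∧ Nonempty (C(↥K, ℝ) ≃L[ℝ] C(L, ℝ)) := by
  refine ⟨HH, inferInstance, inferInstance, inferInstance, KK, convex_KK, isCompact_KK,
    KK_not_metrizable, LL, inferInstance, inferInstance, inferInstance, inferInstance, ?_⟩
  obtain ⟨e⟩ := homeo_KK
  obtain ⟨j, hj⟩ := exists_extension
  obtain ⟨e1⟩ := decomposition C(↥K0, ℝ) C(LL, ℝ) (curryEquiv LL shiftHomeo) j ss hj ii rr rr_ii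
  have hKK : CompactSpace ↥KK := isCompact_iff_compactSpace.mp isCompact_KK
  obtain ⟨e2⟩ := equivOfHomeo e.symm
  exact ⟨e2.trans e1⟩

end Pool.Agent.Helper27.WC
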